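import Pool.Agent.Q66.RP.Syl
import Pool.Agent.W709.RT.Full

/-!
# Two-bridge tangles and the invariant form at the Kashaev root of unity

The (1,1)-tangle with a cup between the strands 2 and 3, the braid `w`, and a cap between the strands
1 and 2 (or 2 and 3) is a matrix coefficient of `rep3 N w` for the invariant form.
-/

set_option autoImplicit false

namespace Pool.Agent.Q66.TB

open Matrix Finset Pool.Agent.W715.VC Pool.Agent.H550R3.Jones
open Pool.Agent.W709.RT (cup cap tang F0 F0_hw E3)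

variable {N : ℕ}

/-- `e_0 ⊗ cup` -/
noncomputable def X0 (N : ℕ) : I3 N → ℂ := F0 (rt N) N

/-- `cup ⊗ e_0` -/
noncomputable def Y0 (N : ℕ) : I3 N → ℂ := fun p =>
  if (p.2.2 : ℕ) = 0 then cup N (rt N) (p.1, p.2.1) else 0

lemma norm_kap (hN : 0 < N) {k : ℕ} (hk : k < N) : ‖Pool.Agent.W709.RT.kap N (rt N) k‖ = 1 := by
  induction k with
  | zero => rw [Pool.Agent.W709.RT.kap_zero (fun k h0 h1 => br_ne (by omega) (by omega)) hN,
      norm_one]
  | succ k ih =>
    have h1 := Pool.Agent.W709.RT.kap_succ (rt_ne N) (N := N) (k := k) hk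
    have h2 := ih (by omega)
    have h3 : br (rt N) ((N : ℤ) - 1 - k) = br (rt N) ((k : ℤ) + 1) := by
      rw [← br_refl hN ((k : ℤ) + 1)]
      congr 1
      ring
    have h4 : br (rt N) ((k : ℤ) + 1) ≠ 0 := br_ne (by omega) (by omega)
    rw [h3] at h1
    have h5 : Pool.Agent.W709.RT.kap N (rt N) (k + 1) =
        -(Pool.Agent.W709.RT.kap N (rt N) k * rt N ^ ((N : ℤ) - 3 - 2 * k)) := by
      apply mul_right_cancel₀ h4
      rw [h1]
      ring
    rw [h5, norm_neg, norm_mul, h2, norm_rt_zpow, mul_one]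

lemma conj_kap (hN : 0 < N) {k : ℕ} (hk : k < N) :
    (starRingEnd ℂ) (Pool.Agent.W709.RT.kap N (rt N) k) = (Pool.Agent.W709.RT.kap N (rt N) k)⁻¹ := by
  rw [Complex.inv_def, Complex.normSq_eq_norm_sq, norm_kap hN hk]
  norm_num

lemma Et_E3 : Et N = E3 (rt N) N := by
  have h : ∀ A : M1 N, s3 A = on3 A := by
    intro A
    ext ⟨a, b, c⟩ ⟨a', b', c'⟩
    simp only [s3, on3, Matrix.kroneckerMap_apply, Matrix.one_apply]
    by_cases h1 : a = a' <;> by_cases h2 : b = b' <;> simp [h1, h2]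
  unfold Et E3 E12
  rw [h, h]
  rfl

lemma X0_InK (N : ℕ) : InK (N - 1) (X0 N) := by
  refine ⟨fun a b c h => ?_, ?_⟩
  · unfold hat at h
    split_ifs at h with h1
    · unfold X0 F0 cup at h
      split_ifs at h with h2 h3
      · simp only at h2 h3
        omega
      · exact absurd rfl h
      · exact absurd rfl h
    · exact absurd rfl h
  · rw [Et_E3]
    exact F0_hw (rt_ne N)

lemma cap_conj (hN : 0 < N) (a b : Fin N) :
    cap N (rt N) (a, b) = (starRingEnd ℂ) (cup N (rt N) (b, a)) := by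
  unfold cap cup
  by_cases h : (a : ℕ) + b = N - 1
  · rw [if_pos h, if_pos (by rw [← h, add_comm]), conj_kap hN b.isLt]
  · rw [if_neg h, if_neg (fun h2 => h (by rw [← h2, add_comm])), map_zero]

/-- the invariant of the tangle -/
noncomputable def J12 (N : ℕ) (w : List (ℕ × Bool)) : ℂ := Hf (X0 N) (rep3 N w *ᵥ X0 N)

/-- the invariant of the tangle with the cap between the strands 2 and 3 -/
noncomputable def J23 (N : ℕ) (w : List (ℕ × Bool)) : ℂ := Hf (Y0 N) (rep3 N w *ᵥ X0 N)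

lemma rep_entry (w : List (ℕ × Bool)) (p q : I3 N) :
    rep (crossP N (rt N)) (crossN N (rt N)) 3 w ![p.1, p.2.1, p.2.2] ![q.1, q.2.1, q.2.2] =
      rep3 N w p q := by
  rw [rep_rep3]
  rfl

lemma rep3_X0 (hN : 0 < N) (w : List (ℕ × Bool)) (p : I3 N) :
    (rep3 N w *ᵥ X0 N) p = ∑ q : Fin N × Fin N, rep3 N w p (⟨0, hN⟩, q) * cup N (rt N) q := by
  unfold Matrix.mulVec dotProduct
  rw [Fintype.sum_prod_type, Finset.sum_eq_single (⟨0, hN⟩ : Fin N)]
  · apply Finset.sum_congr rfl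
    intro q _
    unfold X0 F0
    rw [if_pos rfl]
  · intro x _ hx
    apply Finset.sum_eq_zero
    intro q _
    unfold X0 F0
    rw [if_neg (fun hc => hx (Fin.ext hc)), mul_zero]
  · intro h
    exact absurd (Finset.mem_univ _) h

theorem tang_J12 (hN : 0 < N) (w : List (ℕ × Bool)) :
    tang N w (rt N) ⟨0, hN⟩ ⟨0, hN⟩ = J12 N w := by
  unfold tang J12 Hf
  rw [Fintype.sum_prod_type (f := fun p : I3 N => (starRingEnd ℂ) (X0 N p) *
    (rep3 N w *ᵥ X0 N) (rv p)), Finset.sum_eq_single (⟨0, hN⟩ : Fin N)]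
  · -- reorder `p`
    rw [← (Equiv.prodComm (Fin N) (Fin N)).sum_comp]
    refine Finset.sum_congr rfl fun p _ => ?_
    have h1 : rv ((⟨0, hN⟩, p) : I3 N) = (p.2, (p.1, ⟨0, hN⟩)) := rfl
    rw [h1, rep3_X0 hN, Finset.mul_sum]
    refine Finset.sum_congr rfl fun q _ => ?_
    have h2 : rep (crossP N (rt N)) (crossN N (rt N)) 3 w
        ![(Equiv.prodComm (Fin N) (Fin N) p).1, (Equiv.prodComm (Fin N) (Fin N) p).2, ⟨0, hN⟩]
        ![⟨0, hN⟩, q.1, q.2] = rep3 N w (p.2, (p.1, ⟨0, hN⟩)) (⟨0, hN⟩, q) :=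
      rep_entry w (p.2, (p.1, ⟨0, hN⟩)) (⟨0, hN⟩, q)
    rw [h2, ← mul_assoc]
    have h3 : cap N (rt N) (Equiv.prodComm (Fin N) (Fin N) p) =
        (starRingEnd ℂ) (X0 N (⟨0, hN⟩, p)) := by
      refine (cap_conj hN p.2 p.1).trans ?_
      unfold X0 F0
      rw [if_pos rfl]
    rw [h3]
  · intro x _ hx
    apply Finset.sum_eq_zero
    intro q _
    have : X0 N (x, q) = 0 := by
      unfold X0 F0
      rw [if_neg (fun hc => hx (Fin.ext hc))]
    rw [this, map_zero, zero_mul]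
  · intro h
    exact absurd (Finset.mem_univ _) h

/-- the operator of the (1,1)-tangle with the cap between the strands 2 and 3 -/
noncomputable def tang' (N : ℕ) (w : List (ℕ × Bool)) (v : ℂ) : Matrix (Fin N) (Fin N) ℂ :=
  fun i j => ∑ p : Fin N × Fin N, ∑ q : Fin N × Fin N,
    cap N v p * rep (crossP N v) (crossN N v) 3 w ![i, p.1, p.2] ![j, q.1, q.2] * cup N v q

theorem tang'_J23 (hN : 0 < N) (w : List (ℕ × Bool)) :
    tang' N w (rt N) ⟨0, hN⟩ ⟨0, hN⟩ = J23 N w := by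
  have hs : J23 N w = ∑ x : Fin N, ∑ p : Fin N × Fin N,
      (starRingEnd ℂ) (Y0 N (rvE N (x, p))) * (rep3 N w *ᵥ X0 N) (x, p) := by
    unfold J23 Hf
    rw [← (rvE N).sum_comp (fun p : I3 N => (starRingEnd ℂ) (Y0 N p) * (rep3 N w *ᵥ X0 N) (rv p)),
      Fintype.sum_prod_type]
    rfl
  rw [hs, Finset.sum_eq_single (⟨0, hN⟩ : Fin N)]
  unfold tang'
  · refine Finset.sum_congr rfl fun p _ => ?_
    rw [rep3_X0 hN, Finset.mul_sum]
    refine Finset.sum_congr rfl fun q _ => ?_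
    have h2 : rep (crossP N (rt N)) (crossN N (rt N)) 3 w ![⟨0, hN⟩, p.1, p.2]
        ![⟨0, hN⟩, q.1, q.2] = rep3 N w (⟨0, hN⟩, p) (⟨0, hN⟩, q) :=
      rep_entry w (⟨0, hN⟩, p) (⟨0, hN⟩, q)
    rw [h2, ← mul_assoc]
    have h3 : Y0 N (rvE N ((⟨0, hN⟩, p) : I3 N)) = cup N (rt N) (p.2, p.1) := by
      unfold Y0
      exact if_pos rfl
    rw [h3, ← cap_conj hN p.1 p.2]
  · intro x _ hx
    apply Finset.sum_eq_zero
    intro q _
    have : Y0 N (rvE N ((x, q) : I3 N)) = 0 := by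
      unfold Y0
      exact if_neg (fun hc => hx (Fin.ext hc))
    rw [this, map_zero, zero_mul]
  · intro h
    exact absurd (Finset.mem_univ _) h

/-! ### moving the strand through the cup -/

lemma P12_X0 (a b c : Fin N) : (on12 (PP N) *ᵥ X0 N) (a, (b, c)) =
    if (b : ℕ) = 0 then rt N ^ (-((N : ℤ) - 1) * (1 + (a : ℕ))) * cup N (rt N) (a, c) else 0 := by
  have hN : 0 < N := by have := a.isLt; omega
  rw [on12_mulVec]
  by_cases hb : (b : ℕ) = 0
  · rw [if_pos hb, Finset.sum_eq_single ((⟨0, hN⟩ : Fin N), a)]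
    · unfold PP
      rw [P_zero_val' (adm N) hb rfl rfl]
      unfold X0 F0
      rw [if_pos rfl]
    · intro q _ hq
      by_contra h
      have h1 : (q.1 : ℕ) = 0 := by
        by_contra h2
        apply right_ne_zero_of_mul h
        unfold X0 F0
        rw [if_neg h2]
      have h3 := P_col_zero h1 (left_ne_zero_of_mul h)
      apply hq
      ext
      · exact h1
      · exact congrArg Fin.val h3.1.symm
    · intro h; exact absurd (mem_univ _) h
  · rw [if_neg hb]
    apply Finset.sum_eq_zero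
    intro q _
    by_contra h
    have h1 : (q.1 : ℕ) = 0 := by
      by_contra h2
      apply right_ne_zero_of_mul h
      unfold X0 F0
      rw [if_neg h2]
    have h3 := P_col_zero h1 (left_ne_zero_of_mul h)
    exact hb h3.2

lemma P23P12_X0 (hN : 0 < N) : on23 (PP N) *ᵥ (on12 (PP N) *ᵥ X0 N) =
    rt N ^ (-((N : ℤ) - 1) * (N + 1)) • Y0 N := by
  funext p
  obtain ⟨a, b, c⟩ := p
  rw [Pool.Agent.W715.VC.on23_mulVec, Pi.smul_apply, smul_eq_mul]
  unfold Y0
  by_cases hc : (c : ℕ) = 0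
  · rw [if_pos hc, Finset.sum_eq_single ((⟨0, hN⟩ : Fin N), b)]
    · unfold PP
      rw [P_zero_val' (adm N) hc rfl rfl]
      have h1 := P12_X0 a (⟨0, hN⟩ : Fin N) b
      unfold PP at h1
      rw [h1, if_pos rfl]
      unfold cup
      by_cases h : (a : ℕ) + b = N - 1
      · rw [if_pos h, ← mul_assoc, ← zpow_add₀ (rt_ne N)]
        congr 2
        have : ((a : ℕ) : ℤ) + (b : ℕ) = N - 1 := by omega
        simp only
        linear_combination (-((N : ℤ) - 1)) * this
      · simp only [if_neg h, mul_zero]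
    · intro q _ hq
      by_contra h
      have h1 : (q.1 : ℕ) = 0 := by
        by_contra h2
        apply right_ne_zero_of_mul h
        obtain ⟨q1, q2⟩ := q
        rw [P12_X0, if_neg h2]
      have h3 := P_col_zero h1 (left_ne_zero_of_mul h)
      apply hq
      ext
      · exact h1
      · exact congrArg Fin.val h3.1.symm
    · intro h; exact absurd (mem_univ _) h
  · rw [if_neg hc, mul_zero]
    apply Finset.sum_eq_zero
    intro q _
    by_contra h
    have h1 : (q.1 : ℕ) = 0 := by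
      by_contra h2
      apply right_ne_zero_of_mul h
      obtain ⟨q1, q2⟩ := q
      rw [P12_X0, if_neg h2]
    have h3 := P_col_zero h1 (left_ne_zero_of_mul h)
    exact hc h3.2

lemma hat_X0 (a b c : ℕ) : hat (X0 N) a b c =
    if a = 0 ∧ b < N ∧ c < N ∧ b + c = N - 1 then Pool.Agent.W709.RT.kap N (rt N) b else 0 := by
  unfold hat X0 F0 cup
  by_cases h : a < N ∧ b < N ∧ c < N
  · rw [dif_pos h]
    by_cases h0 : a = 0
    · by_cases h1 : b + c = N - 1
      · rw [if_pos (by exact h0), if_pos (by exact h1), if_pos ⟨h0, h.2.1, h.2.2, h1⟩]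
      · rw [if_pos (by exact h0), if_neg (by exact h1), if_neg (fun h2 => h1 h2.2.2.2)]
    · rw [if_neg (by exact h0), if_neg (fun h2 => h0 h2.1)]
  · rw [dif_neg h, if_neg]
    rintro ⟨rfl, h1, h2, h3⟩
    exact h ⟨by omega, h1, h2⟩

/-- the cup is an eigenvector of the crossing -/
lemma P23_X0 (hN : 0 < N) : ∃ lam : ℂ, ‖lam‖ = 1 ∧ on23 (PP N) *ᵥ X0 N = lam • X0 N := by
  have hK := X0_InK N
  refine ⟨rt N ^ (-((N : ℤ) - 1) * N) * Pool.Agent.W709.RT.kap N (rt N) (N - 1), ?_, ?_⟩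
  · rw [norm_mul, norm_rt_zpow, norm_kap hN (by omega), one_mul]
  · rw [← sub_eq_zero]
    refine tt_inj hN (InK_sub (P23_InK hK) (InK_smul hK _)) fun a ha => ?_
    rw [tt_sub, tt_smul]
    unfold tt
    rw [P23_row (by omega) (by omega), hat_X0, hat_X0]
    by_cases h0 : a = 0
    · subst h0
      rw [if_pos ⟨rfl, by omega, by omega, by omega⟩, if_pos ⟨rfl, by omega, by omega, by omega⟩,
        Pool.Agent.W709.RT.kap_zero (fun k h0 h1 => br_ne (by omega) (by omega)) hN, Nat.sub_zero]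
      have e : (-((N : ℤ) - 1) * (1 + ((N - 1 : ℕ) : ℤ))) = -((N : ℤ) - 1) * N := by
        rw [Nat.cast_sub (by omega)]
        push_cast
        ring
      rw [e]
      ring
    · rw [if_neg (fun h => h0 h.1), if_neg (fun h => h0 h.1)]
      ring

end Pool.Agent.Q66.TB
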