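import Pool.Agent.Q66.TB.Low
import Pool.Agent.W120.VC.Tet

/-!
# Further properties: reflection, non-vanishing, volume bounds, continuity, parity
-/

set_option autoImplicit false

namespace Pool.Agent.Q66.TB

open Matrix Finset Filter Topology Pool.Agent.W715.VC Pool.Agent.Q66.RP
open Pool.Agent.W719.BX (uA)
open Pool.Agent.H550R3.Jones (on12 on23 crossP crossN br rep)
open Pool.Agent.W709.RT (word)

variable {N : ℕ}

/-- **the reflection inequality for two-bridge links** -/
theorem KK_refl (hN : 0 < N) (c d : List ℤ) (h : c.length % 2 = d.length % 2) :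
    KK N (c ++ d.reverse) ^ 2 ≤ KK N (c ++ c.reverse) * KK N (d ++ d.reverse) := by
  have hp : par true c.length = par true d.length := by
    unfold par
    rw [h]
  have e1 : cw true (c ++ d.reverse) = dual (cw true d) ++ cw true c := by
    rw [cw_append, dual_cw, hp]
  have e2 : ∀ l : List ℤ, cw true (l ++ l.reverse) = dual (cw true l) ++ cw true l := fun l => by
    rw [cw_append, dual_cw]
  rw [KK_even (by rw [List.length_append, List.length_reverse]; omega),
    KK_even (by rw [List.length_append, List.length_reverse]; omega),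
    KK_even (by rw [List.length_append, List.length_reverse]; omega), e1, e2, e2]
  have h2 := refl12 hN (w1 := dual (cw true d)) (w2 := cw true c) dual_lt (cw_lt _ _)
  rw [dual_dual (cw_lt _ _)] at h2
  rw [mul_comm]
  exact h2

lemma dual_fl {w : List (ℕ × Bool)} (hw : ∀ l ∈ w, l.1 < 2) :
    rep3 N (dual w) * rep3 N (w.map fl) = 1 := by
  induction w with
  | nil => simp [dual, rep3_nil]
  | cons x w ih =>
    have e : dual (x :: w) = dual w ++ [dl x] := by
      unfold dual
      rw [List.map_cons, List.reverse_cons]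
    have q1 : on12 (QQ N) * on12 (PP N) = 1 := by rw [on12_mul, QQ_PP, on12_one]
    have q2 : on23 (QQ N) * on23 (PP N) = 1 := by rw [on23_mul, QQ_PP, on23_one]
    have q3 : on12 (PP N) * on12 (QQ N) = 1 := by rw [on12_mul, PP_QQ, on12_one]
    have q4 : on23 (PP N) * on23 (QQ N) = 1 := by rw [on23_mul, PP_QQ, on23_one]
    have h1 : rep3 N [dl x] * g3 N (fl x) = 1 := by
      obtain ⟨k, b⟩ := x
      have hk := hw (k, b) List.mem_cons_self
      have hk2 : k = 0 ∨ k = 1 := by simp only at hk; omega
      rcases hk2 with rfl | rfl <;> cases b <;>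
        simp [dl, fl, g3, rep3_cons, rep3_nil, q1, q2, q3, q4]
    rw [e, rep3_append, List.map_cons, rep3_cons]
    calc rep3 N (dual w) * rep3 N [dl x] * (g3 N (fl x) * rep3 N (w.map fl))
        = rep3 N (dual w) * (rep3 N [dl x] * g3 N (fl x)) * rep3 N (w.map fl) := by
          simp only [mul_assoc]
      _ = 1 := by rw [h1, mul_one, ih fun l hl => hw l (List.mem_cons_of_mem _ hl)]

/-- **non-vanishing** -/
theorem KK_pos (hN : 0 < N) (l : List ℤ) : 0 < KK N (l ++ l.reverse) := by
  have hm : N - 1 < N := by omega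
  have hm2 : N ≤ 2 * (N - 1) + 1 := by omega
  set w := cw true l with hw
  have hwl : ∀ x ∈ w, x.1 < 2 := cw_lt _ _
  have h1 : Hf (rep3 N w *ᵥ X0 N) (rep3 N (w.map fl) *ᵥ X0 N) = 1 := by
    have h2 := J12_nil hN
    unfold J12 at h2
    rw [rep3_nil, one_mulVec] at h2
    rw [← h2]
    have h3 := Hf_rep hN (u := dual w) dual_lt (X0 N) (rep3 N (w.map fl) *ᵥ X0 N)
    rw [dual_dual hwl] at h3
    rw [← h3, Matrix.mulVec_mulVec, dual_fl hwl, one_mulVec]
  have hX := X0_InK N
  have h4 := cs hm hm2 (x := rep3 N w *ᵥ X0 N) (y := rep3 N (w.map fl) *ᵥ X0 N)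
    ((good_rep3 _).InK hX) ((good_rep3 _).InK hX)
  rw [h1, norm_one, one_pow] at h4
  have h5 : KK N (l ++ l.reverse) = ‖Hf (rep3 N w *ᵥ X0 N) (rep3 N w *ᵥ X0 N)‖ := by
    rw [KK_even (by rw [List.length_append, List.length_reverse]; omega), cw_append, ← dual_cw]
    unfold J12
    rw [rep3_append, ← Matrix.mulVec_mulVec, Hf_rep hN dual_lt, dual_dual hwl]
  rw [h5]
  by_contra h6
  have h7 : ‖Hf (rep3 N w *ᵥ X0 N) (rep3 N w *ᵥ X0 N)‖ = 0 :=
    le_antisymm (not_lt.1 h6) (norm_nonneg _)
  rw [h7, zero_mul] at h4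
  linarith

/-! ### continuity -/

theorem tang'_cont {v : ℂ} (hv : v ≠ 0) (hb : ∀ k : ℕ, 0 < k → k < N → br v k ≠ 0)
    (w : List (ℕ × Bool)) (i j : Fin N) : ContinuousAt (fun v => tang' N w v i j) v := by
  have hkap : ∀ k : ℕ, ContinuousAt (fun v => Pool.Agent.W709.RT.kap N v k) v := by
    intro k
    unfold Pool.Agent.W709.RT.kap
    rcases Nat.eq_zero_or_pos N with h0 | h0
    · exact absurd i.isLt (by omega)
    · refine (continuousAt_const.mul (Pool.Agent.H756R3.J.zpow_cont hv _)).mul
        (((Pool.Agent.H756R3.J.brf_cont hv _).mul (Pool.Agent.H756R3.J.brf_cont hv _)).div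
          (Pool.Agent.H756R3.J.brf_cont hv _) (Pool.Agent.W709.RT.brf_ne' hb (by omega)))
  unfold tang'
  refine tendsto_finsetSum _ fun p _ => tendsto_finsetSum _ fun q _ => ?_
  refine ContinuousAt.mul (ContinuousAt.mul ?_ ?_) ?_
  · unfold Pool.Agent.W709.RT.cap
    by_cases h : (p.1 : ℕ) + p.2 = N - 1
    · simp only [if_pos h]
      exact (hkap _).inv₀ (Pool.Agent.W709.RT.kap_ne hv hb p.2.isLt)
    · simp only [if_neg h]
      exact continuousAt_const
  · exact Pool.Agent.H756R3.J.rep_cont (fun v => crossP N v) (fun v => crossN N v) v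
      (Pool.Agent.H756R3.J.crossP_cont hv hb) (Pool.Agent.H756R3.J.crossN_cont hv hb) 3 w _ _
  · unfold Pool.Agent.W709.RT.cup
    by_cases h : (q.1 : ℕ) + q.2 = N - 1
    · simp only [if_pos h]
      exact hkap _
    · simp only [if_neg h]
      exact continuousAt_const

/-! ### volume bounds -/

lemma tet_le {x y z : ℝ} (hx : 0 < x) (hy : 0 < y) (hz : 0 < z) (h : x + y + z = Real.pi) :
    GapVol.lob x + GapVol.lob y + GapVol.lob z ≤ 2 * GapVol.lob (Real.pi / 6) := by
  have hpi := Real.pi_pos
  have h1 := Pool.Agent.W120.VC.tet (Real.pi / 3) (Real.pi / 3) (Real.pi / 3) x y z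
    (by positivity) (by positivity) (by positivity) (by ring) hx.le hy.le hz.le h
  have h2 := GapVol.lob_dup
  have h3 : (x - Real.pi / 3) * Real.log (2 * Real.sin (Real.pi / 3)) +
      (y - Real.pi / 3) * Real.log (2 * Real.sin (Real.pi / 3)) +
      (z - Real.pi / 3) * Real.log (2 * Real.sin (Real.pi / 3)) = 0 := by
    have : (x - Real.pi / 3) + (y - Real.pi / 3) + (z - Real.pi / 3) = 0 := by linarith
    linear_combination Real.log (2 * Real.sin (Real.pi / 3)) * this
  linarith

/-- the volume of `C(a, a)` is at most the number of tetrahedra times `v_3` -/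
lemma WW_le {a : ℕ} (ha : 2 ≤ a) : WW a ≤ (4 * a - 6) * (2 * GapVol.lob (Real.pi / 6)) := by
  have h6 := lob6
  rcases Nat.lt_or_ge a 4 with h | h
  · interval_cases a
    · have : WW 2 = 4 * GapVol.lob (Real.pi / 6) := by simp [WW]
      rw [this]
      push_cast
      linarith
    · have : WW 3 = 8 * GapVol.lob (Real.pi / 6) := by simp [WW]
      rw [this]
      push_cast
      linarith
  · obtain ⟨⟨w, h1, h2⟩, -⟩ := (lim_EE4 h).1
    rw [← h2]
    unfold Pool.Agent.W709.VC.volw
    have h3 : ∀ i ∈ Finset.Icc 1 (a + a - 3), 2 * (GapVol.lob (Pool.Agent.W709.VC.xa a w i) +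
        GapVol.lob (Pool.Agent.W709.VC.ya a w i) + GapVol.lob (Pool.Agent.W709.VC.za w i)) ≤
        2 * (2 * GapVol.lob (Real.pi / 6)) := by
      intro i hi
      rw [Finset.mem_Icc] at hi
      obtain ⟨p1, p2, p3⟩ := h1.2.2 i hi.1 hi.2
      refine mul_le_mul_of_nonneg_left (tet_le p1 p2 p3 ?_) zero_le_two
      unfold Pool.Agent.W709.VC.xa Pool.Agent.W709.VC.ya Pool.Agent.W709.VC.za
      split_ifs <;> ring
    refine (Finset.sum_le_sum h3).trans ?_
    rw [Finset.sum_const, Nat.card_Icc, nsmul_eq_mul]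
    have h4 : ((a + a - 3 + 1 - 1 : ℕ) : ℝ) = 2 * a - 3 := by
      have : a + a - 3 + 1 - 1 + 3 = 2 * a := by omega
      have h5 : ((a + a - 3 + 1 - 1 : ℕ) : ℝ) + 3 = 2 * a := by exact_mod_cast this
      linarith
    rw [h4]
    linarith

lemma VV_le (b : ℕ) : VV b ≤ 4 * b * (2 * GapVol.lob (Real.pi / 6)) := by
  induction b with
  | zero => simp [VV]
  | succ b ih =>
    have h1 := VV_add b 1
    have h2 : VV 1 = 8 * GapVol.lob (Real.pi / 6) := by simp [VV]
    rw [h2] at h1
    push_cast
    linarith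

/-- **the bound by the number of crossings** -/
theorem vol_le (a z : ℤ) (l : List ℤ) (ha : 2 ≤ a.natAbs) (hz : 2 ≤ z.natAbs) :
    (WW a.natAbs + WW z.natAbs + (l.map fun b => VV b.natAbs).sum) / 2 ≤
      2 * (2 * GapVol.lob (Real.pi / 6)) *
        ((a.natAbs + (l.map fun b => b.natAbs).sum + z.natAbs : ℕ) - 3) := by
  have h1 := WW_le ha
  have h2 := WW_le hz
  have h3 : (l.map fun b => VV b.natAbs).sum ≤
      4 * ((l.map fun b => b.natAbs).sum : ℕ) * (2 * GapVol.lob (Real.pi / 6)) := by
    clear ha hz h1 h2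
    induction l with
    | nil => simp
    | cons b l ih =>
      rw [List.map_cons, List.sum_cons, List.map_cons, List.sum_cons]
      have := VV_le b.natAbs
      push_cast at ih ⊢
      linarith
  push_cast at h3 ⊢
  linarith

/-! ### knots and links -/

/-- numerator and denominator of the continued fraction -/
def det : List ℤ → ℤ × ℤ
  | [] => (1, 0)
  | a :: l => (a * (det l).1 + (det l).2, (det l).1)

lemma det_even (m : ℤ) (n : ℕ) : Odd (det (List.replicate (2 * n) (2 * m))).1 ∧
    Even (det (List.replicate (2 * n) (2 * m))).2 := by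
  induction n with
  | zero => exact ⟨odd_one, Even.zero⟩
  | succ n ih =>
    obtain ⟨h1, h2⟩ := ih
    have e : List.replicate (2 * (n + 1)) (2 * m) =
        2 * m :: 2 * m :: List.replicate (2 * n) (2 * m) := by
      rw [show 2 * (n + 1) = (2 * n + 1) + 1 by ring, List.replicate_succ, List.replicate_succ]
    rw [e]
    simp only [det]
    constructor
    · have h3 : Even (2 * m * (2 * m * (det (List.replicate (2 * n) (2 * m))).1 +
          (det (List.replicate (2 * n) (2 * m))).2)) := by
        rw [mul_assoc]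
        exact even_two_mul _
      exact h3.add_odd h1
    · have h3 : Even (2 * m * (det (List.replicate (2 * n) (2 * m))).1) := by
        rw [mul_assoc]
        exact even_two_mul _
      exact h3.add h2

lemma det_odd (m : ℤ) (n : ℕ) :
    (n % 3 = 0 → Odd (det (List.replicate (2 * n) (2 * m + 1))).1 ∧
      Even (det (List.replicate (2 * n) (2 * m + 1))).2) ∧
    (n % 3 = 1 → Even (det (List.replicate (2 * n) (2 * m + 1))).1 ∧
      Odd (det (List.replicate (2 * n) (2 * m + 1))).2) ∧
    (n % 3 = 2 → Odd (det (List.replicate (2 * n) (2 * m + 1))).1 ∧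
      Odd (det (List.replicate (2 * n) (2 * m + 1))).2) := by
  induction n with
  | zero => exact ⟨fun _ => ⟨odd_one, Even.zero⟩, by omega, by omega⟩
  | succ n ih =>
    obtain ⟨i0, i1, i2⟩ := ih
    have e : List.replicate (2 * (n + 1)) (2 * m + 1) =
        (2 * m + 1) :: (2 * m + 1) :: List.replicate (2 * n) (2 * m + 1) := by
      rw [show 2 * (n + 1) = (2 * n + 1) + 1 by ring, List.replicate_succ, List.replicate_succ]
    rw [e]
    simp only [det]
    generalize (det (List.replicate (2 * n) (2 * m + 1))).1 = p at *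
    generalize (det (List.replicate (2 * n) (2 * m + 1))).2 = q at *
    refine ⟨fun h => ?_, fun h => ?_, fun h => ?_⟩
    · obtain ⟨h1, h2⟩ := i2 (by omega)
      refine ⟨?_, ?_⟩
      · simp only [Int.odd_iff, Int.even_iff] at *
        ring_nf
        omega
      · simp only [Int.odd_iff, Int.even_iff] at *
        ring_nf
        omega
    · obtain ⟨h1, h2⟩ := i0 (by omega)
      refine ⟨?_, ?_⟩
      · simp only [Int.odd_iff, Int.even_iff] at *
        ring_nf
        omega
      · simp only [Int.odd_iff, Int.even_iff] at *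
        ring_nf
        omega
    · obtain ⟨h1, h2⟩ := i1 (by omega)
      refine ⟨?_, ?_⟩
      · simp only [Int.odd_iff, Int.even_iff] at *
        ring_nf
        omega
      · simp only [Int.odd_iff, Int.even_iff] at *
        ring_nf
        omega

end Pool.Agent.Q66.TB
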