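import Pool.Agent.Q66.TB.Ineq
import Pool.Agent.H112R4.VL.A2
import Pool.Agent.W12.VCSmall

/-!
# The invariant of `C(2,2)` (figure eight knot) and its growth
-/

set_option autoImplicit false

namespace Pool.Agent.Q66.TB.Fig8

open Real Finset Filter Topology EvenVol Pool.Agent.H112R4.VL

/-- `k (3 k + 1) / 2` -/
def ee (k : ℕ) : ℕ := k * (3 * k + 1) / 2

lemma ee_two (k : ℕ) : ee k + ee k = k * (3 * k + 1) := by
  unfold ee
  have : Even (k * (3 * k + 1)) := by
    rcases Nat.even_or_odd k with h | h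
    · exact h.mul_right _
    · refine Even.mul_left ?_ _
      obtain ⟨m, rfl⟩ := h
      exact ⟨3 * m + 2, by ring⟩
  obtain ⟨m, hm⟩ := this
  omega

lemma ee_succ (k : ℕ) : ee (k + 1) = ee k + (3 * k + 2) := by
  have h1 := ee_two k
  have h2 := ee_two (k + 1)
  have h3 : (k + 1) * (3 * (k + 1) + 1) = k * (3 * k + 1) + 2 * (3 * k + 2) := by ring
  omega

/-- summand -/
noncomputable def uu (q : ℂ) (n k : ℕ) : ℂ :=
  (-1) ^ k * q ^ ee k * (1 - q ^ (2 * k + 1)) * P q n / (P q (n - k) * P q (n + k + 1))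

/-- companion -/
noncomputable def GG (q : ℂ) (n k : ℕ) : ℂ :=
  (-1) ^ k * q ^ (n + 1 - k + ee k) * (1 - q ^ k) * P q n / (P q (n + k + 1) * P q (n + 1 - k))

lemma uu_rec {q : ℂ} {n k : ℕ} (hk : k ≤ n) (h : P q (n + k + 2) ≠ 0) :
    uu q (n + 1) k - uu q n k = GG q n k - GG q n (k + 1) := by
  obtain ⟨m, rfl⟩ : ∃ m, n = k + m := ⟨n - k, by omega⟩
  unfold uu GG
  rw [show k + m + 1 - k = m + 1 by omega, show k + m - k = m by omega,
    show k + m + 1 - (k + 1) = m by omega, show k + m + (k + 1) + 1 = k + m + k + 1 + 1 by omega,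
    show k + m + 1 + k + 1 = k + m + k + 1 + 1 by omega, ee_succ]
  have h1 : P q (k + m + k + 1 + 1) ≠ 0 := h
  have h3 : P q (m + 1) ≠ 0 := P_ne_of_le h1 (by omega)
  rw [P_succ q (k + m + k + 1)] at *
  rw [P_succ q m] at *
  rw [P_succ q (k + m)] at *
  have hA : P q (k + m + k + 1) ≠ 0 := left_ne_zero_of_mul h1
  have hB : 1 - q ^ (k + m + k + 1 + 1) ≠ 0 := right_ne_zero_of_mul h1
  have hC : P q m ≠ 0 := left_ne_zero_of_mul h3
  have hD : 1 - q ^ (m + 1) ≠ 0 := right_ne_zero_of_mul h3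
  field_simp
  ring

lemma uu_top {q : ℂ} {n : ℕ} (h : P q (2 * n + 3) ≠ 0) : uu q (n + 1) (n + 1) = GG q n (n + 1) := by
  unfold uu GG
  rw [show n + 1 + (n + 1) + 1 = 2 * n + 2 + 1 by omega, show n + (n + 1) + 1 = 2 * n + 2 by omega,
    Nat.sub_self, P_zero, P_succ q (2 * n + 2), P_succ q n]
  have h1 : P q (2 * n + 2 + 1) ≠ 0 := h
  rw [P_succ] at h1
  have hA : P q (2 * n + 2) ≠ 0 := left_ne_zero_of_mul h1
  have hB : 1 - q ^ (2 * n + 2 + 1) ≠ 0 := right_ne_zero_of_mul h1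
  rw [show 2 * (n + 1) + 1 = 2 * n + 2 + 1 by ring, Nat.zero_add]
  field_simp

lemma sum_uu {q : ℂ} (n : ℕ) (h : P q (2 * n + 1) ≠ 0) :
    ∑ k ∈ range (n + 1), uu q n k = 1 := by
  induction n with
  | zero =>
    rw [Finset.sum_range_one]
    unfold uu
    have h1 : 1 - q ≠ 0 := by simpa [P] using h
    simp [P, ee]
    exact h1
  | succ n ih =>
    have h2 := ih (P_ne_of_le h (by omega))
    have h3 : ∑ k ∈ range (n + 1), (uu q (n + 1) k - uu q n k) = GG q n 0 - GG q n (n + 1) := by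
      rw [← Finset.sum_range_sub']
      apply Finset.sum_congr rfl
      intro k hk
      rw [Finset.mem_range] at hk
      exact uu_rec (by omega) (P_ne_of_le h (by omega))
    have h4 : GG q n 0 = 0 := by simp [GG]
    rw [Finset.sum_sub_distrib, h2, h4] at h3
    rw [Finset.sum_range_succ, uu_top (by rw [show 2 * n + 3 = 2 * (n + 1) + 1 by ring]; exact h)]
    linear_combination h3

/-- `n (n + 3) / 2` -/
def tq (n : ℕ) : ℕ := n * (n + 3) / 2

lemma tq_two (n : ℕ) : tq n + tq n = n * (n + 3) := by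
  unfold tq
  have : Even (n * (n + 3)) := by
    rcases Nat.even_or_odd n with h | h
    · exact h.mul_right _
    · refine Even.mul_left ?_ _
      obtain ⟨m, rfl⟩ := h
      exact ⟨m + 2, by ring⟩
  obtain ⟨m, hm⟩ := this
  omega

lemma gam_term2 {v : ℂ} (hv : v ≠ 0) {n k : ℕ} (hk : k ≤ n) (h : P (v ^ 2) (n + k + 1) ≠ 0) :
    (-1) ^ (n - k) * (brf v n / (brf v (n - k) * brf v (n + k + 1))) *
    (((-1) ^ k * v ^ (k * (k + 1))) ^ (2 : ℤ) * br v ((2 * k + 1 : ℕ) : ℤ)) =
    v ^ tq n * uu (v ^ 2) n k := by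
  obtain ⟨m, rfl⟩ : ∃ m, n = k + m := ⟨n - k, by omega⟩
  have e1 := brf_eq hv (k + m)
  have e2 := brf_eq hv m
  have e3 := brf_eq hv (k + m + k + 1)
  have e4 := br_eq hv (2 * k + 1)
  have hm : P (v ^ 2) m ≠ 0 := P_ne_of_le h (by omega)
  unfold uu
  rw [show k + m - k = m by omega]
  set A := brf v (k + m)
  set B := brf v m
  set D := brf v (k + m + k + 1)
  set E := br v ((2 * k + 1 : ℕ) : ℤ)
  set a := (k + m) * (k + m + 1) / 2 with ha
  set b := m * (m + 1) / 2 with hb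
  set d := (k + m + k + 1) * (k + m + k + 1 + 1) / 2 with hd
  have hva : v ^ a ≠ 0 := pow_ne_zero _ hv
  have hvb : v ^ b ≠ 0 := pow_ne_zero _ hv
  have hvd : v ^ d ≠ 0 := pow_ne_zero _ hv
  have hve : v ^ (2 * k + 1) ≠ 0 := pow_ne_zero _ hv
  have ta : a + a = (k + m) * (k + m + 1) := tri _
  have tb : b + b = m * (m + 1) := tri _
  have td : d + d = (k + m + k + 1) * (k + m + k + 1 + 1) := tri _
  have tt := tq_two (k + m)
  have te := ee_two k
  have hA : A = (-1) ^ (k + m) * P (v ^ 2) (k + m) / v ^ a := by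
    rw [eq_div_iff hva, ← e1]; ring
  have hB : B = (-1) ^ m * P (v ^ 2) m / v ^ b := by
    rw [eq_div_iff hvb, ← e2]; ring
  have hD : D = (-1) ^ (k + m + k + 1) * P (v ^ 2) (k + m + k + 1) / v ^ d := by
    rw [eq_div_iff hvd, ← e3]; ring
  have hE : E = -(1 - (v ^ 2) ^ (2 * k + 1)) / v ^ (2 * k + 1) := by
    rw [eq_div_iff hve, ← e4]; ring
  have hexp : b + d + 2 * (k * (k + 1)) = a + (2 * k + 1) + tq (k + m) + 2 * ee k := by
    have : (b + b) + (d + d) + 4 * (k * (k + 1)) =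
      (a + a) + 2 * (2 * k + 1) + (tq (k + m) + tq (k + m)) + 2 * (ee k + ee k) := by
      rw [ta, tb, td, tt, te]; ring
    omega
  have hpow : v ^ b * v ^ d * v ^ (2 * (k * (k + 1))) =
      v ^ a * v ^ (2 * k + 1) * v ^ tq (k + m) * (v ^ 2) ^ ee k := by
    rw [← pow_mul, ← pow_add, ← pow_add, ← pow_add, ← pow_add, ← pow_add, hexp]
  have hs : ((-1 : ℂ) ^ k) ^ 2 = 1 := by rw [← pow_mul, mul_comm, pow_mul]; norm_num
  have hsm : ((-1 : ℂ) ^ m) ^ 2 = 1 := by rw [← pow_mul, mul_comm, pow_mul]; norm_num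
  have hk0 : ((-1 : ℂ) ^ k) ≠ 0 := pow_ne_zero _ (by norm_num)
  have hm0 : ((-1 : ℂ) ^ m) ≠ 0 := pow_ne_zero _ (by norm_num)
  rw [hA, hB, hD, hE]
  have hz : ((-1 : ℂ) ^ k * v ^ (k * (k + 1))) ^ (2 : ℤ) = v ^ (2 * (k * (k + 1))) := by
    rw [show (2 : ℤ) = ((2 : ℕ) : ℤ) by norm_num, zpow_natCast, mul_pow, mul_comm 2 (k * (k + 1)),
      pow_mul v (k * (k + 1)) 2, hs, one_mul]
  rw [hz]
  have hPD : P (v ^ 2) (k + m + k + 1) ≠ 0 := h
  set X := (-1 : ℂ) ^ k
  set Y := (-1 : ℂ) ^ m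
  have s1 : (-1 : ℂ) ^ (k + m) = X * Y := pow_add _ _ _
  have s2 : (-1 : ℂ) ^ (k + m + k + 1) = - Y := by
    rw [pow_succ, pow_add, pow_add]
    linear_combination (-Y) * hs
  rw [s1, s2]
  have hY : Y ≠ 0 := hm0
  set PA := P (v ^ 2) (k + m)
  set PB := P (v ^ 2) m
  set PD := P (v ^ 2) (k + m + k + 1)
  set V := 1 - (v ^ 2) ^ (2 * k + 1)
  clear_value a b d
  clear hA hB hD hE e1 e2 e3 e4 hz
  calc _ = X * PA * V * (v ^ b * v ^ d * v ^ (2 * (k * (k + 1)))) /
        (v ^ a * v ^ (2 * k + 1) * (PD * PB)) := by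
        generalize v ^ a = va at *
        generalize v ^ b = vb at *
        generalize v ^ d = vd at *
        generalize v ^ (2 * k + 1) = ve at *
        generalize v ^ (2 * (k * (k + 1))) = W at *
        clear_value X Y PA PB PD V
        field_simp
    _ = _ := by
        rw [hpow]
        clear_value X Y PA PB PD V
        generalize v ^ a = va at *
        generalize v ^ (2 * k + 1) = ve at *
        generalize v ^ tq (k + m) = vk at *
        generalize (v ^ 2) ^ ee k = Q at *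
        field_simp

lemma gamH2 {v : ℂ} (hv : v ≠ 0) {n : ℕ} (h : brf v (2 * n + 1) ≠ 0) :
    gamH 2 v n = v ^ tq n := by
  have hP := P_ne_of_brf hv h
  rw [← mul_one (v ^ tq n), ← sum_uu n hP, Finset.mul_sum]
  unfold gamH
  apply Finset.sum_congr rfl
  intro k hk
  rw [Finset.mem_range] at hk
  exact gam_term2 hv (by omega) (P_ne_of_le hP (by omega))

lemma gamH2_inv (v : ℂ) (n : ℕ) : gamH 2 v⁻¹ n = (-1) ^ n * gamH (-2) v n := by
  unfold gamH
  rw [Finset.mul_sum]
  apply Finset.sum_congr rfl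
  intro k hk
  rw [Finset.mem_range] at hk
  rw [brf_inv, brf_inv, brf_inv, br_inv]
  have h1 : ((-1 : ℂ) ^ k * v⁻¹ ^ (k * (k + 1))) ^ (2 : ℤ) =
      ((-1 : ℂ) ^ k * v ^ (k * (k + 1))) ^ (-2 : ℤ) := by
    rw [zpow_neg, ← inv_zpow]
    congr 1
    rw [mul_inv, inv_pow]
    congr 1
    rw [← inv_pow]
    norm_num
  rw [h1]
  obtain ⟨m, rfl⟩ : ∃ m, n = k + m := ⟨n - k, by omega⟩
  rw [show k + m - k = m by omega]
  have hs : ((-1 : ℂ) ^ k) ^ 2 = 1 := by rw [← pow_mul, mul_comm, pow_mul]; norm_num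
  have hsm : ((-1 : ℂ) ^ m) ^ 2 = 1 := by rw [← pow_mul, mul_comm, pow_mul]; norm_num
  have hk0 : ((-1 : ℂ) ^ k) ≠ 0 := pow_ne_zero _ (by norm_num)
  have hm0 : ((-1 : ℂ) ^ m) ≠ 0 := pow_ne_zero _ (by norm_num)
  have s2 : (-1 : ℂ) ^ (k + m + k + 1) = - (-1) ^ m := by
    rw [pow_succ, pow_add, pow_add]
    linear_combination (-(-1) ^ m) * hs
  rw [s2, pow_add (-1 : ℂ) k m]
  generalize (-1 : ℂ) ^ k = X at *
  generalize (-1 : ℂ) ^ m = Y at *
  have : X * Y * brf v (k + m) / (Y * brf v m * (-Y * brf v (k + m + k + 1))) =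
      - (X / Y) * (brf v (k + m) / (brf v m * brf v (k + m + k + 1))) := by
    rw [show Y * brf v m * (-Y * brf v (k + m + k + 1)) =
      (-Y * Y) * (brf v m * brf v (k + m + k + 1)) by ring, mul_div_mul_comm]
    congr 1
    field_simp
  rw [this]
  have hXY : X / Y = X * Y := by
    field_simp
    rw [hsm]
  rw [hXY]
  ring

lemma gam_prod2 {v : ℂ} (hv : v ≠ 0) {n : ℕ} (h : brf v (2 * n + 1) ≠ 0) :
    gamH 2 v n * gamH (-2) v n = (-1) ^ n := by
  have h' : brf v⁻¹ (2 * n + 1) ≠ 0 := by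
    rw [brf_inv]
    exact mul_ne_zero (pow_ne_zero _ (by norm_num)) h
  have h1 := gamH2 hv h
  have h2 := gamH2 (inv_ne_zero hv) h'
  rw [gamH2_inv] at h2
  have hsn : ((-1 : ℂ) ^ n) * (-1) ^ n = 1 := by rw [← mul_pow]; norm_num
  have h3 : gamH (-2) v n = (-1) ^ n * v⁻¹ ^ tq n := by
    rw [← h2, ← mul_assoc, hsn, one_mul]
  have e : v ^ tq n * v⁻¹ ^ tq n = 1 := by rw [← mul_pow, mul_inv_cancel₀ hv, one_pow]
  rw [h1, h3]
  linear_combination (-1) ^ n * e

/-- the Kashaev invariant of the figure eight knot -/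
noncomputable def KF (N : ℕ) : ℝ := ∑ i ∈ range N, ‖brf (v0 N) i‖ ^ 2

lemma conj_brf_v0 (N i : ℕ) : (starRingEnd ℂ) (brf (v0 N) i) = (-1) ^ i * brf (v0 N) i :=
  Pool.Agent.W715.VC.conj_brf N i

theorem taskF {N : ℕ} (hN : 2 ≤ N) :
    Tendsto (JD 2 (-2) N) (𝓝[≠] (v0 N)) (𝓝 ((KF N : ℝ) : ℂ)) := by
  have hv0 : v0 N ≠ 0 := TE.v0_ne hN
  have hcont : Tendsto (fun v : ℂ => ∑ i ∈ range N, (-1) ^ i *
      (∏ j ∈ range i, (br v ((N : ℤ) + ((j : ℤ) + 1)) * br v ((N : ℤ) - ((j : ℤ) + 1)))) *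
      (-1) ^ i) (𝓝[≠] (v0 N)) (𝓝 ((KF N : ℝ) : ℂ)) := by
    have hval : ((KF N : ℝ) : ℂ) = ∑ i ∈ range N, (-1) ^ i *
      (∏ j ∈ range i, (br (v0 N) ((N : ℤ) + ((j : ℤ) + 1)) *
        br (v0 N) ((N : ℤ) - ((j : ℤ) + 1)))) * (-1) ^ i := by
      unfold KF
      rw [Complex.ofReal_sum]
      apply Finset.sum_congr rfl
      intro i hi
      rw [prod_v0 hN]
      have h1 := conj_brf_v0 N i
      have h2 := Complex.mul_conj (brf (v0 N) i)
      rw [Complex.normSq_eq_norm_sq, h1] at h2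
      rw [← h2]
      ring
    rw [hval]
    apply tendsto_nhdsWithin_of_tendsto_nhds
    apply tendsto_finsetSum
    intro i hi
    have hbr : ∀ n : ℤ, Tendsto (fun v : ℂ => br v n) (𝓝 (v0 N)) (𝓝 (br (v0 N) n)) :=
      fun n => (TE.br_diff n hv0).continuousAt
    exact (tendsto_const_nhds.mul (tendsto_finsetProd _
      (fun j _ => (hbr _).mul (hbr _)))).mul tendsto_const_nhds
  refine hcont.congr' ?_
  have hne : ∀ᶠ v in 𝓝[≠] (v0 N), v ≠ 0 :=
    (continuousAt_id.eventually_ne hv0).filter_mono nhdsWithin_le_nhds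
  have hall : ∀ᶠ v in 𝓝[≠] (v0 N), ∀ j ∈ range (2 * N - 1), br v ((j : ℤ) + 1) ≠ 0 := by
    rw [Filter.eventually_all_finset]
    intro j hj
    rw [Finset.mem_range] at hj
    by_cases hjN : j + 1 = N
    · have := TE.brN_ne hN
      rw [show ((j : ℤ) + 1) = (N : ℤ) by exact_mod_cast hjN]
      exact this
    · have h1 : br (v0 N) ((j : ℤ) + 1) ≠ 0 := by
        apply TE.br_ne hN
        intro hd
        have hd' : N ∣ j + 1 := by exact_mod_cast hd
        obtain ⟨c, hc⟩ := hd'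
        have : c < 2 := by
          by_contra hh
          push Not at hh
          have := Nat.mul_le_mul_left N hh
          omega
        interval_cases c <;> omega
      exact ((TE.br_diff _ hv0).continuousAt.eventually_ne h1).filter_mono nhdsWithin_le_nhds
  filter_upwards [hne, hall] with v hv hbv
  unfold JD
  apply Finset.sum_congr rfl
  intro i hi
  rw [Finset.mem_range] at hi
  have hb : brf v (2 * i + 1) ≠ 0 := by
    unfold brf
    rw [Finset.prod_ne_zero_iff]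
    intro j hj
    rw [Finset.mem_range] at hj
    exact hbv j (Finset.mem_range.2 (by omega))
  rw [gam_prod2 hv hb]

theorem growth : Tendsto (fun N : ℕ => 2 * π * (Real.log (KF N) / N)) atTop
    (𝓝 (4 * GapVol.lob (π / 6))) := by
  have key : ∀ᶠ N : ℕ in atTop, |Real.log (KF N) - (-2 * GapVol.L N (N / 6))| ≤ 30 * Real.log N := by
    filter_upwards [eventually_ge_atTop 100] with N hN
    have hNpos : (0 : ℝ) < N := by exact_mod_cast (by omega : 0 < N)
    have hN100 : (100 : ℝ) ≤ N := by exact_mod_cast hN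
    set m := N - 1 - N / 6 with hm
    have hlogN : 0 ≤ Real.log N := Real.log_nonneg (by linarith)
    have hU : KF N ≤ N * Real.exp (2 * (Real.log N - GapVol.L N (N / 6))) := by
      unfold KF
      have : ∀ n ∈ range N, ‖brf (v0 N) n‖ ^ 2 ≤
          Real.exp (2 * (Real.log N - GapVol.L N (N / 6))) := by
        intro n hn
        rw [Finset.mem_range] at hn
        rw [Pool.Agent.W12.VCSmall.norm_brf hn, ← Real.exp_nat_mul]
        apply Real.exp_le_exp.2
        have := GapVol.L_max (M := N) (k := n) (by omega) (by omega)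
        push_cast
        linarith
      refine (Finset.sum_le_sum this).trans ?_
      simp
    have hL : Real.exp (2 * (Real.log N - GapVol.L N (N / 6))) ≤ KF N := by
      have h2 := GapVol.L_reflect (M := N) (k := N / 6) (by omega) (by omega)
      have h3 : Real.exp (2 * (Real.log N - GapVol.L N (N / 6))) = ‖brf (v0 N) m‖ ^ 2 := by
        rw [Pool.Agent.W12.VCSmall.norm_brf (by omega), ← Real.exp_nat_mul]
        congr 1
        push_cast
        linarith
      rw [h3]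
      exact Finset.single_le_sum (f := fun n => ‖brf (v0 N) n‖ ^ 2) (fun i _ => by positivity)
        (Finset.mem_range.2 (by omega))
    have hKpos : 0 < KF N := (Real.exp_pos _).trans_le hL
    have u1 : Real.log (KF N) ≤ Real.log N + 2 * (Real.log N - GapVol.L N (N / 6)) := by
      refine (Real.log_le_log hKpos hU).trans ?_
      rw [Real.log_mul (by positivity) (by positivity), Real.log_exp]
    have u2 : 2 * (Real.log N - GapVol.L N (N / 6)) ≤ Real.log (KF N) :=
      (Real.le_log_iff_exp_le hKpos).2 hL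
    rw [abs_le]
    constructor <;> linarith
  have hlim1 : Tendsto (fun N : ℕ => 4 * ((π / N) * (-GapVol.L N (N / 6)))) atTop
      (𝓝 (4 * GapVol.lob (π / 6))) := GapVol.riemann_tendsto.const_mul 4
  have hlog : Tendsto (fun N : ℕ => 60 * π * (Real.log N / N)) atTop (𝓝 0) := by
    have h1 : Tendsto (fun x : ℝ => Real.log x / x) atTop (𝓝 0) := by
      have := Real.isLittleO_log_id_atTop.tendsto_div_nhds_zero
      exact this
    have h2 := (h1.comp tendsto_natCast_atTop_atTop).const_mul (60 * π)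
    rw [mul_zero] at h2
    exact h2
  have hdiff : Tendsto (fun N : ℕ => 2 * π * (Real.log (KF N) / N) -
      4 * ((π / N) * (-GapVol.L N (N / 6)))) atTop (𝓝 0) := by
    refine squeeze_zero_norm' ?_ hlog
    filter_upwards [key, eventually_ge_atTop 1] with N h1 hN
    have hNpos : (0 : ℝ) < N := by exact_mod_cast (by omega : 0 < N)
    have e : 2 * π * (Real.log (KF N) / N) - 4 * ((π / N) * (-GapVol.L N (N / 6))) =
      2 * π / N * (Real.log (KF N) - (-2 * GapVol.L N (N / 6))) := by ring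
    rw [e, norm_mul, Real.norm_eq_abs, Real.norm_eq_abs, abs_of_pos (by positivity : 0 < 2 * π / N)]
    calc 2 * π / N * |Real.log (KF N) - (-2 * GapVol.L N (N / 6))| ≤ 2 * π / N * (30 * Real.log N) :=
          mul_le_mul_of_nonneg_left h1 (by positivity)
      _ = _ := by ring
  have := hdiff.add hlim1
  simp only [zero_add, sub_add_cancel] at this
  exact this

end Pool.Agent.Q66.TB.Fig8
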