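import Pool.Agent.Q66.TB.Fig8

/-!
# The growth of the invariants of the double twist knots and links `C(a, a)`
-/

set_option autoImplicit false

namespace Pool.Agent.Q66.TB

open Matrix Finset Filter Topology Pool.Agent.W715.VC Pool.Agent.Q66.RP
open Pool.Agent.H550R3.Jones (on12 on23 crossP)
open Pool.Agent.W709.RT (jt jt_v0 word)

variable {N : ℕ}

lemma EE_nonneg (a N : ℕ) : 0 ≤ EE a N := norm_nonneg _

lemma jt_EE (a : ℕ) (hN : 0 < N) : ‖jt a N (EvenVol.v0 N)‖ = EE a N := by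
  unfold jt EE
  rw [dif_pos hN, ← tang_J12 hN]
  rfl

/-- entries of modulus at most one -/
lemma norm_X0 (hN : 0 < N) (p : I3 N) : ‖X0 N p‖ ≤ 1 := by
  unfold X0 Pool.Agent.W709.RT.F0 Pool.Agent.W709.RT.cup
  split_ifs
  · rw [norm_kap hN p.2.1.isLt]
  · simp
  · simp

/-- the unknot -/
lemma J12_nil (hN : 0 < N) : J12 N [] = 1 := by
  unfold J12
  rw [rep3_nil, one_mulVec]
  unfold Hf
  rw [Finset.sum_eq_single ((⟨0, hN⟩, (⟨N - 1, by omega⟩, ⟨0, hN⟩)) : I3 N)]
  · have h : X0 N (⟨0, hN⟩, (⟨N - 1, by omega⟩, ⟨0, hN⟩)) =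
        Pool.Agent.W709.RT.kap N (rt N) (N - 1) := by
      unfold X0 Pool.Agent.W709.RT.F0 Pool.Agent.W709.RT.cup
      rw [if_pos rfl, if_pos (by simp)]
    have h2 : rv ((⟨0, hN⟩, (⟨N - 1, by omega⟩, ⟨0, hN⟩)) : I3 N) =
        (⟨0, hN⟩, (⟨N - 1, by omega⟩, ⟨0, hN⟩)) := rfl
    rw [h2, h, mul_comm, Complex.mul_conj, Complex.normSq_eq_norm_sq, norm_kap hN (by omega)]
    norm_num
  · rintro ⟨a, b, c⟩ _ hp
    by_contra hne
    have h1 := left_ne_zero_of_mul hne
    have h2 := right_ne_zero_of_mul hne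
    have f1 : (a : ℕ) = 0 ∧ (b : ℕ) + c = N - 1 := by
      by_contra hc
      apply h1
      unfold X0 Pool.Agent.W709.RT.F0 Pool.Agent.W709.RT.cup
      by_cases ha : (a : ℕ) = 0
      · rw [if_pos (by exact ha), if_neg (fun h => hc ⟨ha, h⟩), map_zero]
      · rw [if_neg (by exact ha), map_zero]
    have f2 : (c : ℕ) = 0 := by
      by_contra hc
      apply h2
      unfold X0 Pool.Agent.W709.RT.F0
      rw [if_neg (by exact hc)]
    apply hp
    refine Prod.ext (Fin.ext f1.1) (Prod.ext (Fin.ext ?_) (Fin.ext f2))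
    simp only
    omega
  · intro h
    exact absurd (Finset.mem_univ _) h

lemma EE_zero (hN : 0 < N) : EE 0 N = 1 := by
  have : word 0 = [] := rfl
  unfold EE
  rw [this, J12_nil hN, norm_one]

/-- `C(1, 1)` does not grow -/
lemma EE_one (hN : 0 < N) : EE 1 N ≤ (N : ℝ) ^ 3 := by
  have h1 : word 1 = dual [(0, true)] ++ [(0, true)] := rfl
  have h2 : ∀ l ∈ [((0 : ℕ), true)], l.1 < 2 := by simp
  have h3 : J12 N (word 1) = Hf (rep3 N [(0, true)] *ᵥ X0 N) (rep3 N [(0, true)] *ᵥ X0 N) := by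
    unfold J12
    rw [h1, rep3_append, ← Matrix.mulVec_mulVec, Hf_rep hN dual_lt, dual_dual h2]
  unfold EE
  rw [h3]
  refine (Hf_bound _ (R := 1) (fun p => ?_) zero_le_one).trans (by rw [one_pow, mul_one])
  have h4 : rep3 N [(0, true)] = on12 (PP N) := by simp [rep3_cons, rep3_nil, g3]
  obtain ⟨a, b, c⟩ := p
  rw [h4, P12_X0]
  split_ifs
  · rw [norm_mul, norm_rt_zpow, one_mul]
    unfold Pool.Agent.W709.RT.cup
    split_ifs
    · rw [norm_kap hN a.isLt]
    · simp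
  · simp

/-- the volume of the complement of `C(a, a)` -/
noncomputable def WW (a : ℕ) : ℝ :=
  if a ≤ 1 then 0 else if a = 2 then 4 * GapVol.lob (Real.pi / 6)
  else if a = 3 then 8 * GapVol.lob (Real.pi / 6)
  else sSup {W : ℝ | ∃ w, Pool.Agent.W709.VC.IsAngle a a w ∧ Pool.Agent.W709.VC.volw a a w = W}

lemma lim_congr {S T : ℕ → ℝ} {V : ℝ} (h : ∀ᶠ N : ℕ in atTop, S N = T N) (hS : Lim S V) :
    Lim T V := by
  unfold Lim at *
  refine hS.congr' ?_
  filter_upwards [h] with N hN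
  rw [hN]

lemma lim_EE2 : Lim (EE 2) (4 * GapVol.lob (Real.pi / 6)) := by
  refine lim_congr (S := Fig8.KF) ?_ Fig8.growth
  filter_upwards [eventually_ge_atTop 2] with N hN
  have h := jt_v0 (A := 2) hN (κ := ((Fig8.KF N : ℝ) : ℂ)) (by
    have := Fig8.taskF hN
    exact this)
  rw [← jt_EE 2 (by omega), h, Complex.norm_real, Real.norm_eq_abs, abs_of_nonneg]
  exact Finset.sum_nonneg fun i _ => by positivity

lemma lim_EE3 : Lim (EE 3) (8 * GapVol.lob (Real.pi / 6)) := by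
  refine lim_congr (S := Pool.Agent.H112R4.VL.K) ?_ ?_
  · filter_upwards [eventually_ge_atTop 2] with N hN
    have h := jt_v0 (A := 3) hN (κ := ((Pool.Agent.H112R4.VL.K N : ℝ) : ℂ)) (by
      have := Pool.Agent.H112R4.VL.taskA N hN
      exact this)
    rw [← jt_EE 3 (by omega), h, Complex.norm_real, Real.norm_eq_abs, abs_of_nonneg]
    exact Finset.sum_nonneg fun i _ => by positivity
  · unfold Lim
    refine (Pool.Agent.H112R4.VL.taskD Pool.Agent.H112R4.VL.taskB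
      Pool.Agent.H8R3.VL.taskC).congr fun N => ?_
    ring

lemma lim_EE4 {a : ℕ} (ha : 4 ≤ a) :
    IsGreatest {W : ℝ | ∃ w, Pool.Agent.W709.VC.IsAngle a a w ∧
      Pool.Agent.W709.VC.volw a a w = W} (WW a) ∧
    10 * GapVol.lob (Real.pi / 6) ≤ WW a ∧ Lim (EE a) (WW a) := by
  obtain ⟨V, h1, h2⟩ := Pool.Agent.W709.RT.main ha
  obtain ⟨α, b, η, hC⟩ := Pool.Agent.W704.VC.Crit.crit ((a : ℝ) / 2) (by
    have : (4 : ℝ) ≤ a := by exact_mod_cast ha
    linarith)
  have h3 := Pool.Agent.W709.VC.s_greatest ha hC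
  have h4 := Pool.Agent.W709.VC.vol_ge Pool.Agent.W402.VC.max Pool.Agent.W305.VC.ten
    (m := (a : ℝ) / 2) (by
      have : (4 : ℝ) ≤ a := by exact_mod_cast ha
      linarith) hC
  rw [← h1.unique h3] at h4
  have h5 : WW a = V := by
    unfold WW
    rw [if_neg (by omega), if_neg (by omega), if_neg (by omega)]
    exact h1.csSup_eq
  rw [h5]
  refine ⟨h1, h4, ?_⟩
  refine lim_congr (S := fun N => ‖jt a N (EvenVol.v0 N)‖) ?_ h2
  filter_upwards [eventually_gt_atTop 0] with N hN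
  exact jt_EE a hN

/-- **the growth of the invariant of `C(a, a)`** -/
theorem lim_EE {a : ℕ} (ha : 2 ≤ a) : Lim (EE a) (WW a) ∧ 0 < WW a := by
  have h6 := lob6
  rcases Nat.lt_or_ge a 4 with h | h
  · interval_cases a
    · have : WW 2 = 4 * GapVol.lob (Real.pi / 6) := by simp [WW]
      rw [this]
      exact ⟨lim_EE2, by positivity⟩
    · have : WW 3 = 8 * GapVol.lob (Real.pi / 6) := by simp [WW]
      rw [this]
      exact ⟨lim_EE3, by positivity⟩
  · obtain ⟨-, h1, h2⟩ := lim_EE4 h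
    exact ⟨h2, by linarith⟩

theorem ub_EE (a : ℕ) : UB (EE a) (WW a) ∧ 0 ≤ WW a := by
  rcases Nat.lt_or_ge a 2 with h | h
  · have hW : WW a = 0 := by
      unfold WW
      rw [if_pos (by omega)]
    rw [hW]
    refine ⟨fun ε hε => ?_, le_rfl⟩
    filter_upwards [poly_le 3 1 hε, eventually_gt_atTop 0] with N e1 e2
    rw [zero_div, zero_add]
    have hN1 : (1 : ℝ) ≤ N := by exact_mod_cast e2
    have hN3 : (1 : ℝ) ≤ (N : ℝ) ^ 3 := one_le_pow₀ hN1
    interval_cases a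
    · rw [EE_zero e2]
      linarith
    · have := EE_one e2
      linarith
  · obtain ⟨h1, h2⟩ := lim_EE h
    exact ⟨Lim.ub (EE_nonneg a) h1, h2.le⟩

end Pool.Agent.Q66.TB
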