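import Pool.Agent.Q66.TB.Mir

/-!
# The reflection inequality for two-bridge tangles
-/

set_option autoImplicit false

namespace Pool.Agent.Q66.TB

open Matrix Finset Filter Topology Pool.Agent.W715.VC Pool.Agent.Q66.RP
open Pool.Agent.H550R3.Jones (on12 on23)

variable {N : ℕ}

lemma Hf_rep (hN : 0 < N) {u : List (ℕ × Bool)} (hu : ∀ l ∈ u, l.1 < 2) (x y : I3 N → ℂ) :
    Hf x (rep3 N u *ᵥ y) = Hf (rep3 N (dual u) *ᵥ x) y := by
  rw [Hf_adj, hadj_rep3 hN dual_lt, dual_dual hu]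

lemma app_lt {u w : List (ℕ × Bool)} (hu : ∀ l ∈ u, l.1 < 2) (hw : ∀ l ∈ w, l.1 < 2) :
    ∀ l ∈ u ++ w, l.1 < 2 := by
  intro l hl
  rw [List.mem_append] at hl
  rcases hl with h | h
  · exact hu l h
  · exact hw l h

/-- the general inequality -/
lemma refl_gen (hN : 0 < N) {w1 w2 : List (ℕ × Bool)} (h1 : ∀ l ∈ w1, l.1 < 2)
    (h2 : ∀ l ∈ w2, l.1 < 2) (us : List (List (ℕ × Bool) × ℝ))
    (hus : ∀ p ∈ us, (∀ l ∈ p.1, l.1 < 2) ∧ 1 ≤ p.2 ∧ SpecLe (rep3 N (dual p.1 ++ p.1)) p.2)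
    {Z X : I3 N → ℂ} (hZ : InK (N - 1) Z) (hX : InK (N - 1) X) :
    ‖Hf Z (rep3 N (w1 ++ ((us.map Prod.fst).flatten ++ w2)) *ᵥ X)‖ ^ 2 ≤
      ‖Hf Z (rep3 N (w1 ++ dual w1) *ᵥ Z)‖ * ((us.map Prod.snd).prod *
        ‖Hf X (rep3 N (dual w2 ++ w2) *ᵥ X)‖) := by
  have hm : N - 1 < N := by omega
  have hm2 : N ≤ 2 * (N - 1) + 1 := by omega
  rw [rep3_append, rep3_append, ← Matrix.mulVec_mulVec, ← Matrix.mulVec_mulVec, Hf_rep hN h1]
  have hx : InK (N - 1) (rep3 N (dual w1) *ᵥ Z) := (good_rep3 _).InK hZ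
  have hy : InK (N - 1) (rep3 N w2 *ᵥ X) := (good_rep3 _).InK hX
  have hy2 : InK (N - 1) (rep3 N (us.map Prod.fst).flatten *ᵥ (rep3 N w2 *ᵥ X)) :=
    (good_rep3 _).InK hy
  refine (cs hm hm2 hx hy2).trans ?_
  have e1 : Hf (rep3 N (dual w1) *ᵥ Z) (rep3 N (dual w1) *ᵥ Z) =
      Hf Z (rep3 N (w1 ++ dual w1) *ᵥ Z) := by
    rw [rep3_append, ← Matrix.mulVec_mulVec, Hf_rep hN h1]
  have e2 : Hf (rep3 N w2 *ᵥ X) (rep3 N w2 *ᵥ X) = Hf X (rep3 N (dual w2 ++ w2) *ᵥ X) := by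
    rw [rep3_append, ← Matrix.mulVec_mulVec, Hf_rep hN dual_lt, dual_dual h2]
  rw [e1, ← e2]
  exact mul_le_mul_of_nonneg_left (norm_prod_le hm hm2 us hus hy) (norm_nonneg _)

/-- the reflection inequality with middle words -/
theorem refl_mid (hN : 0 < N) {w1 w2 : List (ℕ × Bool)} (h1 : ∀ l ∈ w1, l.1 < 2)
    (h2 : ∀ l ∈ w2, l.1 < 2) (us : List (List (ℕ × Bool))) (hus : ∀ u ∈ us, ∀ l ∈ u, l.1 < 2)
    {Z X : I3 N → ℂ} (hZ : InK (N - 1) Z) (hX : InK (N - 1) X) :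
    ‖Hf Z (rep3 N (w1 ++ (us.flatten ++ w2)) *ᵥ X)‖ ^ 2 ≤
      ‖Hf Z (rep3 N (w1 ++ dual w1) *ᵥ Z)‖ *
        ((us.map fun u => kt (u ++ dual u) N + (N : ℝ) ^ 3).prod *
          ‖Hf X (rep3 N (dual w2 ++ w2) *ᵥ X)‖) := by
  set ps : List (List (ℕ × Bool) × ℝ) :=
    us.map fun u => (u, kt (u ++ dual u) N + (N : ℝ) ^ 3) with hps
  have e1 : ps.map Prod.fst = us := by
    rw [hps, List.map_map]
    conv_rhs => rw [← List.map_id us]
    rfl
  have e2 : ps.map Prod.snd = us.map fun u => kt (u ++ dual u) N + (N : ℝ) ^ 3 := by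
    rw [hps, List.map_map]
    rfl
  have hN1 : (1 : ℝ) ≤ N := by exact_mod_cast hN
  have hN3 : (1 : ℝ) ≤ (N : ℝ) ^ 3 := one_le_pow₀ hN1
  have h3 : ∀ p ∈ ps, (∀ l ∈ p.1, l.1 < 2) ∧ 1 ≤ p.2 ∧ SpecLe (rep3 N (dual p.1 ++ p.1)) p.2 := by
    intro p hp
    rw [hps, List.mem_map] at hp
    obtain ⟨u, hu, rfl⟩ := hp
    refine ⟨hus u hu, ?_, specLe_trace hN (hus u hu)⟩
    have := kt_nonneg (u ++ dual u) N
    simp only
    linarith
  rw [← e2]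
  conv_lhs => rw [← e1]
  exact refl_gen hN h1 h2 ps h3 hZ hX

/-- the sharp reflection inequality -/
theorem refl12 (hN : 0 < N) {w1 w2 : List (ℕ × Bool)} (h1 : ∀ l ∈ w1, l.1 < 2)
    (h2 : ∀ l ∈ w2, l.1 < 2) :
    ‖J12 N (w1 ++ w2)‖ ^ 2 ≤ ‖J12 N (w1 ++ dual w1)‖ * ‖J12 N (dual w2 ++ w2)‖ := by
  have h := refl_mid hN h1 h2 [] (by simp) (X0_InK N) (X0_InK N)
  simp only [List.flatten_nil, List.nil_append, List.map_nil, List.prod_nil, one_mul] at h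
  exact h

/-- `cup ⊗ e_0` is the half twist of `e_0 ⊗ cup` -/
lemma Y0_eq (hN : 0 < N) : ∃ c : ℂ, ‖c‖ = 1 ∧ Y0 N = c • (Dl N *ᵥ X0 N) := by
  obtain ⟨lam, hl, hX⟩ := P23_X0 hN
  have h1 : Dl N *ᵥ X0 N = (lam * rt N ^ (-((N : ℤ) - 1) * (N + 1))) • Y0 N := by
    unfold Dl
    rw [YB3, ← Matrix.mulVec_mulVec, ← Matrix.mulVec_mulVec, hX, Matrix.mulVec_smul,
      Matrix.mulVec_smul, P23P12_X0 hN, smul_smul]
  set d := lam * rt N ^ (-((N : ℤ) - 1) * (N + 1)) with hd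
  have hd1 : ‖d‖ = 1 := by rw [hd, norm_mul, hl, norm_rt_zpow, one_mul]
  have hd0 : d ≠ 0 := by
    intro h
    rw [h, norm_zero] at hd1
    exact zero_ne_one hd1
  refine ⟨d⁻¹, by rw [norm_inv, hd1, inv_one], ?_⟩
  rw [h1, smul_smul, inv_mul_cancel₀ hd0, one_smul]

lemma hadj_Dl (hN : 0 < N) : hadj (Dl N) * Dl N = 1 := by
  have e : hadj (Dl N) = on23 (QQ N) * on12 (QQ N) * on23 (QQ N) := by
    unfold Dl
    rw [hadj_mul, hadj_mul, hadj_on12, hadj_on23, sh_PP hN, mul_assoc]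
  have q1 : on12 (QQ N) * on12 (PP N) = 1 := by rw [on12_mul, QQ_PP, on12_one]
  have q2 : on23 (QQ N) * on23 (PP N) = 1 := by rw [on23_mul, QQ_PP, on23_one]
  rw [e]
  unfold Dl
  rw [YB3]
  calc on23 (QQ N) * on12 (QQ N) * on23 (QQ N) * (on23 (PP N) * on12 (PP N) * on23 (PP N))
      = on23 (QQ N) * (on12 (QQ N) * (on23 (QQ N) * on23 (PP N)) * on12 (PP N)) * on23 (PP N) := by
        noncomm_ring
    _ = 1 := by rw [q2, mul_one, q1, mul_one, q2]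

lemma Dl_InK {m : ℕ} {x : I3 N → ℂ} (hx : InK m x) : InK m (Dl N *ᵥ x) := by
  have : Dl N = rep3 N (ht true) := by
    simp [ht, rep3_cons, rep3_nil, g3, Dl, mul_assoc]
  rw [this]
  exact (good_rep3 _).InK hx

/-- the end term on the other side -/
lemma Dl_end (hN : 0 < N) {w : List (ℕ × Bool)} (hw : ∀ l ∈ w, l.1 < 2) (x : I3 N → ℂ) :
    Hf (Dl N *ᵥ x) (rep3 N w *ᵥ (Dl N *ᵥ x)) = Hf x (rep3 N (w.map fl) *ᵥ x) := by
  have h1 : rep3 N w * Dl N = Dl N * rep3 N (w.map fl) := by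
    have h2 := Dl_rep3 (N := N) (w := w.map fl) (by
      intro l hl
      rw [List.mem_map] at hl
      obtain ⟨a, _, rfl⟩ := hl
      simp only [fl]
      omega)
    rw [h2]
    congr 2
    rw [List.map_map]
    conv_lhs => rw [← List.map_id w]
    refine List.map_congr_left fun l hl => ?_
    have := hw l hl
    obtain ⟨k, b⟩ := l
    simp only [Function.comp, fl, id]
    simp only at this
    congr 1
    omega
  rw [Matrix.mulVec_mulVec, h1, ← Matrix.mulVec_mulVec, Hf_adj, Matrix.mulVec_mulVec, hadj_Dl hN,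
    one_mulVec]

/-- the reflection inequality with middle words, caps between the strands 1 and 2 -/
theorem refl12_mid (hN : 0 < N) {w1 w2 : List (ℕ × Bool)} (h1 : ∀ l ∈ w1, l.1 < 2)
    (h2 : ∀ l ∈ w2, l.1 < 2) (us : List (List (ℕ × Bool))) (hus : ∀ u ∈ us, ∀ l ∈ u, l.1 < 2) :
    ‖J12 N (w1 ++ (us.flatten ++ w2))‖ ^ 2 ≤ ‖J12 N (w1 ++ dual w1)‖ *
        ((us.map fun u => kt (u ++ dual u) N + (N : ℝ) ^ 3).prod *
          ‖J12 N (dual w2 ++ w2)‖) :=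
  refl_mid hN h1 h2 us hus (X0_InK N) (X0_InK N)

/-- the reflection inequality with middle words, caps between the strands 2 and 3 -/
theorem refl23_mid (hN : 0 < N) {w1 w2 : List (ℕ × Bool)} (h1 : ∀ l ∈ w1, l.1 < 2)
    (h2 : ∀ l ∈ w2, l.1 < 2) (us : List (List (ℕ × Bool))) (hus : ∀ u ∈ us, ∀ l ∈ u, l.1 < 2) :
    ‖J23 N (w1 ++ (us.flatten ++ w2))‖ ^ 2 ≤ ‖J12 N ((w1 ++ dual w1).map fl)‖ *
        ((us.map fun u => kt (u ++ dual u) N + (N : ℝ) ^ 3).prod *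
          ‖J12 N (dual w2 ++ w2)‖) := by
  obtain ⟨c, hc, hY⟩ := Y0_eq hN
  have h := refl_mid hN h1 h2 us hus (Dl_InK (X0_InK N)) (X0_InK N)
  rw [Dl_end hN (app_lt h1 dual_lt)] at h
  have e : ‖J23 N (w1 ++ (us.flatten ++ w2))‖ =
      ‖Hf (Dl N *ᵥ X0 N) (rep3 N (w1 ++ (us.flatten ++ w2)) *ᵥ X0 N)‖ := by
    unfold J23
    rw [hY, Hf_smul_left, norm_mul, RCLike.norm_conj, hc, one_mul]
  rw [e]
  exact h

/-- `|⟨C(a, a)⟩|` -/
noncomputable def EE (a N : ℕ) : ℝ := ‖J12 N (Pool.Agent.W709.RT.word a)‖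

lemma rt_v0 (N : ℕ) : rt N = EvenVol.v0 N := rfl

lemma EE_mirror (hN : 0 < N) (a : ℕ) : ‖J12 N (word' a)‖ = EE a N := by
  unfold EE
  rw [← tang_J12 hN, ← tang_J12 hN, rt_v0, mirror hN]

/-- the end terms -/
lemma end_right (hN : 0 < N) (a : ℤ) :
    ‖J12 N (dual (tw false a) ++ tw false a)‖ = EE a.natAbs N := by
  unfold tw
  rw [dual_rep]
  by_cases h : 0 ≤ a
  · simp only [h, decide_true, Bool.not_true, Bool.false_eq_true, if_false, Nat.sub_zero]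
    rfl
  · simp only [h, decide_false, Bool.not_false, Bool.false_eq_true, if_false, Nat.sub_zero]
    exact EE_mirror hN _

lemma end_left12 (hN : 0 < N) (a : ℤ) :
    ‖J12 N (tw true a ++ dual (tw true a))‖ = EE a.natAbs N := by
  unfold tw
  rw [dual_rep]
  by_cases h : 0 ≤ a
  · simp only [h, decide_true, Bool.not_true, if_true, Nat.sub_self]
    exact EE_mirror hN _
  · simp only [h, decide_false, Bool.not_false, if_true, Nat.sub_self]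
    rfl

lemma end_left23 (hN : 0 < N) (a : ℤ) :
    ‖J12 N ((tw false a ++ dual (tw false a)).map fl)‖ = EE a.natAbs N := by
  unfold tw
  rw [dual_rep, List.map_append, fl_rep, fl_rep]
  by_cases h : 0 ≤ a
  · simp only [h, decide_true, Bool.not_true, Bool.false_eq_true, if_false, Nat.sub_zero,
      Nat.sub_self]
    exact EE_mirror hN _
  · simp only [h, decide_false, Bool.not_false, Bool.false_eq_true, if_false, Nat.sub_zero,
      Nat.sub_self]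
    rfl

end Pool.Agent.Q66.TB
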