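import Pool.Agent.Q66.TB.Word

/-!
# Lower bounds for the growth of the invariants of the two-bridge links `C(a, a, …, a)`
-/

set_option autoImplicit false

namespace Pool.Agent.Q66.TB

open Matrix Finset Filter Topology Pool.Agent.W715.VC Pool.Agent.Q66.RP
open Pool.Agent.W719.BX (uA)
open Pool.Agent.H550R3.Jones (on12 on23 crossP br)
open Pool.Agent.W709.RT (jt jt_v0 word)

variable {N : ℕ}

/-- the coefficients of the cup at the root of unity -/
lemma kap_root (hN : 0 < N) {k : ℕ} (hk : k < N) : Pool.Agent.W709.RT.kap N (rt N) k =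
    (-1) ^ k * rt N ^ ((k : ℤ) * ((N : ℤ) - 2 - k)) := by
  induction k with
  | zero =>
    rw [Pool.Agent.W709.RT.kap_zero (fun k h0 h1 => br_ne (by omega) (by omega)) hN]
    simp
  | succ k ih =>
    have h1 := Pool.Agent.W709.RT.kap_succ (rt_ne N) (N := N) (k := k) hk
    have h2 := ih (by omega)
    have h3 : br (rt N) ((N : ℤ) - 1 - k) = br (rt N) ((k : ℤ) + 1) := by
      rw [← br_refl hN ((k : ℤ) + 1)]
      congr 1
      ring
    have h4 : br (rt N) ((k : ℤ) + 1) ≠ 0 := br_ne (by omega) (by omega)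
    rw [h3] at h1
    have h5 : Pool.Agent.W709.RT.kap N (rt N) (k + 1) =
        -(Pool.Agent.W709.RT.kap N (rt N) k * rt N ^ ((N : ℤ) - 3 - 2 * k)) := by
      apply mul_right_cancel₀ h4
      rw [h1]
      ring
    rw [h5, h2, mul_assoc, ← zpow_add₀ (rt_ne N), pow_succ]
    have e : (k : ℤ) * ((N : ℤ) - 2 - k) + ((N : ℤ) - 3 - 2 * k) =
        ((k + 1 : ℕ) : ℤ) * ((N : ℤ) - 2 - ((k + 1 : ℕ) : ℤ)) := by
      push_cast
      ring
    rw [e]
    ring

/-- one term of the invariant of the Hopf link -/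
lemma hopf_term (hN : 0 < N) {a c : ℕ} (h : a + c = N - 1) :
    (starRingEnd ℂ) (rt N ^ (-((N : ℤ) - 1) * (1 + (a : ℕ))) *
        Pool.Agent.W709.RT.kap N (rt N) a) *
      (rt N ^ (-((N : ℤ) - 1) * (1 + (c : ℕ))) * Pool.Agent.W709.RT.kap N (rt N) c) = 1 := by
  rw [kap_root hN (by omega), kap_root hN (by omega), map_mul, map_mul, conj_rt_zpow,
    conj_rt_zpow, map_pow, map_neg, map_one]
  have hc : (c : ℤ) = (N : ℤ) - 1 - a := by omega
  have e1 : rt N ^ (-(-((N : ℤ) - 1) * (1 + (a : ℤ)))) *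
      ((-1) ^ a * rt N ^ (-((a : ℤ) * ((N : ℤ) - 2 - a)))) *
      (rt N ^ (-((N : ℤ) - 1) * (1 + (c : ℤ))) * ((-1) ^ c * rt N ^ ((c : ℤ) * ((N : ℤ) - 2 - c)))) =
      ((-1) ^ a * (-1) ^ c) * (rt N ^ (-(-((N : ℤ) - 1) * (1 + (a : ℤ)))) *
        rt N ^ (-((a : ℤ) * ((N : ℤ) - 2 - a))) * (rt N ^ (-((N : ℤ) - 1) * (1 + (c : ℤ))) *
        rt N ^ ((c : ℤ) * ((N : ℤ) - 2 - c)))) := by
    ring
  rw [e1, ← zpow_add₀ (rt_ne N), ← zpow_add₀ (rt_ne N), ← zpow_add₀ (rt_ne N)]
  have e2 : -(-((N : ℤ) - 1) * (1 + (a : ℤ))) + -((a : ℤ) * ((N : ℤ) - 2 - a)) +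
      (-((N : ℤ) - 1) * (1 + (c : ℤ)) + (c : ℤ) * ((N : ℤ) - 2 - c)) =
      (N : ℤ) * ((a : ℤ) - c) := by
    rw [hc]
    ring
  rw [e2, _root_.zpow_mul, rt_zpow_N hN]
  have e3 : ((-1 : ℂ)) ^ a * (-1) ^ c * (-1) ^ ((a : ℤ) - c) = 1 := by
    rw [← zpow_natCast, ← zpow_natCast, ← zpow_add₀ (by norm_num), ← zpow_add₀ (by norm_num)]
    have : (a : ℤ) + c + (a - c) = 2 * a := by ring
    rw [this, _root_.zpow_mul]
    norm_num
  exact e3

/-- **the Hopf link** -/
theorem EE_one_eq (hN : 0 < N) : EE 1 N = N := by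
  have h1 : word 1 = dual [(0, true)] ++ [(0, true)] := rfl
  have h2 : ∀ l ∈ [((0 : ℕ), true)], l.1 < 2 := by simp
  have h4 : rep3 N [(0, true)] = on12 (PP N) := by simp [rep3_cons, rep3_nil, g3]
  have h3 : J12 N (word 1) = Hf (on12 (PP N) *ᵥ X0 N) (on12 (PP N) *ᵥ X0 N) := by
    unfold J12
    rw [h1, rep3_append, ← Matrix.mulVec_mulVec, Hf_rep hN dual_lt, dual_dual h2, h4]
  have h5 : J12 N (word 1) = N := by
    rw [h3]
    unfold Hf
    have h6 : ∀ p : I3 N, (starRingEnd ℂ) ((on12 (PP N) *ᵥ X0 N) p) *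
        (on12 (PP N) *ᵥ X0 N) (rv p) =
        if (p.2.1 : ℕ) = 0 ∧ (p.1 : ℕ) + p.2.2 = N - 1 then 1 else 0 := by
      rintro ⟨a, b, c⟩
      have h7 : rv ((a, (b, c)) : I3 N) = (c, (b, a)) := rfl
      rw [h7, P12_X0, P12_X0]
      by_cases hb : (b : ℕ) = 0
      · rw [if_pos hb, if_pos hb]
        unfold Pool.Agent.W709.RT.cup
        by_cases h : (a : ℕ) + c = N - 1
        · rw [if_pos (by exact h), if_pos (by simp only; omega), if_pos (by exact ⟨hb, h⟩)]
          exact hopf_term hN h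
        · rw [if_neg (by exact h), mul_zero, map_zero, zero_mul, if_neg (fun h8 => h h8.2)]
      · rw [if_neg hb, map_zero, zero_mul, if_neg (fun h8 => hb h8.1)]
    rw [Finset.sum_congr rfl fun p _ => h6 p, Finset.sum_boole]
    have h8 : (Finset.univ.filter fun p : I3 N =>
        (p.2.1 : ℕ) = 0 ∧ (p.1 : ℕ) + p.2.2 = N - 1).card = N := by
      have h9 : (Finset.univ.filter fun p : I3 N =>
          (p.2.1 : ℕ) = 0 ∧ (p.1 : ℕ) + p.2.2 = N - 1) =
          (Finset.univ : Finset (Fin N)).image fun a : Fin N =>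
            (a, ((⟨0, hN⟩ : Fin N), (⟨N - 1 - a, by omega⟩ : Fin N))) := by
        ext ⟨a, b, c⟩
        simp only [Finset.mem_filter, Finset.mem_univ, true_and, Finset.mem_image,
          Prod.mk.injEq, Fin.ext_iff]
        constructor
        · rintro ⟨h1, h2⟩
          exact ⟨a, rfl, h1.symm, by omega⟩
        · rintro ⟨a', h1, h2, h3⟩
          have := a'.isLt
          exact ⟨h2.symm, by omega⟩
      rw [h9, Finset.card_image_of_injective _ (fun x y hxy => (Prod.mk.injEq _ _ _ _ ▸ hxy).1),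
        Finset.card_univ, Fintype.card_fin]
    rw [h8]
  unfold EE
  rw [h5, Complex.norm_natCast]

/-- `C(1, 1, 1, 1)` is the figure-eight knot `C(2, 2)` -/
theorem J12_two (hN : 0 < N) : ‖J12 N (wpow (word 1) 2)‖ = EE 2 N := by
  obtain ⟨lam, hl, hX⟩ := P23_X0 hN
  have hl0 : lam ≠ 0 := by
    intro h
    rw [h, norm_zero] at hl
    exact zero_ne_one hl
  have q1 : on12 (QQ N) * on12 (PP N) = 1 := by rw [on12_mul, QQ_PP, on12_one]
  have q2 : on23 (QQ N) * on23 (PP N) = 1 := by rw [on23_mul, QQ_PP, on23_one]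
  have q3 : on12 (PP N) * on12 (QQ N) = 1 := by rw [on12_mul, PP_QQ, on12_one]
  have hA : on23 (QQ N) * on12 (PP N) * on23 (PP N) = on12 (PP N) * on23 (PP N) * on12 (QQ N) := by
    have hY := YB3 (N := N)
    calc on23 (QQ N) * on12 (PP N) * on23 (PP N)
        = on23 (QQ N) * (on12 (PP N) * on23 (PP N) * on12 (PP N)) * on12 (QQ N) := by
          rw [mul_assoc _ _ (on12 (QQ N)), mul_assoc _ _ (on12 (QQ N)), q3, mul_one, mul_assoc]
      _ = on23 (QQ N) * on23 (PP N) * (on12 (PP N) * on23 (PP N) * on12 (QQ N)) := by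
          rw [hY]; noncomm_ring
      _ = _ := by rw [q2, one_mul]
  have hQX : on23 (QQ N) *ᵥ X0 N = lam⁻¹ • X0 N := by
    have h1 : on23 (QQ N) *ᵥ (on23 (PP N) *ᵥ X0 N) = X0 N := by
      rw [Matrix.mulVec_mulVec, q2, one_mulVec]
    rw [hX, Matrix.mulVec_smul] at h1
    calc on23 (QQ N) *ᵥ X0 N = lam⁻¹ • (lam • (on23 (QQ N) *ᵥ X0 N)) := by
          rw [smul_smul, inv_mul_cancel₀ hl0, one_smul]
      _ = lam⁻¹ • X0 N := by rw [h1]
  have hPX : X0 N = lam⁻¹ • (on23 (PP N) *ᵥ X0 N) := by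
    rw [hX, smul_smul, inv_mul_cancel₀ hl0, one_smul]
  have e1 : rep3 N (wpow (word 1) 2) =
      on23 (QQ N) * on12 (PP N) * (on23 (QQ N) * on12 (PP N)) := by
    have : wpow (word 1) 2 = [(1, false), (0, true), (1, false), (0, true)] := rfl
    rw [this]
    simp [rep3_cons, rep3_nil, g3, mul_assoc]
  have e2 : rep3 N (word' 2) =
      on23 (PP N) * on23 (PP N) * (on12 (QQ N) * on12 (QQ N)) := by
    have : word' 2 = [(1, true), (1, true), (0, false), (0, false)] := rfl
    rw [this]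
    simp [rep3_cons, rep3_nil, g3, mul_assoc]
  have e3 : on23 (QQ N) * on12 (PP N) * (on23 (QQ N) * on12 (PP N)) * on23 (PP N) =
      on12 (PP N) * rep3 N (word' 2) := by
    rw [e2]
    calc on23 (QQ N) * on12 (PP N) * (on23 (QQ N) * on12 (PP N)) * on23 (PP N)
        = on23 (QQ N) * on12 (PP N) * (on23 (QQ N) * on12 (PP N) * on23 (PP N)) := by
          noncomm_ring
      _ = (on23 (QQ N) * on12 (PP N) * on12 (PP N) * on23 (PP N)) * on12 (QQ N) := by
          rw [hA]; noncomm_ring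
      _ = (on23 (QQ N) * on12 (PP N) * (on23 (PP N) * on23 (QQ N)) * on12 (PP N) * on23 (PP N)) *
          on12 (QQ N) := by
          have q4 : on23 (PP N) * on23 (QQ N) = 1 := by rw [on23_mul, PP_QQ, on23_one]
          rw [q4, mul_one]
      _ = (on23 (QQ N) * on12 (PP N) * on23 (PP N)) *
          (on23 (QQ N) * on12 (PP N) * on23 (PP N)) * on12 (QQ N) := by
          noncomm_ring
      _ = on12 (PP N) * on23 (PP N) * (on12 (QQ N) * on12 (PP N)) * on23 (PP N) * on12 (QQ N) *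
          on12 (QQ N) := by
          rw [hA]; noncomm_ring
      _ = _ := by rw [q1, mul_one]; noncomm_ring
  have e4 : rep3 N (wpow (word 1) 2) *ᵥ X0 N =
      lam⁻¹ • (on12 (PP N) *ᵥ (rep3 N (word' 2) *ᵥ X0 N)) := by
    rw [e1]
    conv_lhs => rw [hPX]
    rw [Matrix.mulVec_smul, Matrix.mulVec_mulVec, e3, ← Matrix.mulVec_mulVec]
  have e5 : on12 (PP N) = rep3 N [(0, true)] := by simp [rep3_cons, rep3_nil, g3]
  have e6 : on23 (QQ N) = rep3 N (dual [(0, true)]) := by
    simp [rep3_cons, rep3_nil, g3, dual, dl]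
  rw [← EE_mirror hN 2]
  unfold J12
  rw [e4, Hf_smul_right, norm_mul, norm_inv, hl, inv_one, one_mul, e5,
    Hf_rep hN (by simp), ← e6, hQX, Hf_smul_left, norm_mul, RCLike.norm_conj, norm_inv, hl, inv_one,
    one_mul]

/-! ### powers -/

lemma cw_rep (a : ℕ) (n : ℕ) : cw true (List.replicate (2 * n) (a : ℤ)) = wpow (word a) n := by
  induction n with
  | zero => rfl
  | succ n ih =>
    have e1 : List.replicate (2 * (n + 1)) (a : ℤ) =
        (a : ℤ) :: (a : ℤ) :: List.replicate (2 * n) (a : ℤ) := by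
      rw [show 2 * (n + 1) = (2 * n + 1) + 1 by ring, List.replicate_succ, List.replicate_succ]
    have e2 : wpow (word a) (n + 1) = wpow (word a) n ++ word a := by
      unfold wpow
      rw [List.replicate_add, List.flatten_append]
      simp
    rw [e1, e2, ← ih]
    show (cw true (List.replicate (2 * n) (a : ℤ)) ++ tw true (-(a : ℤ))) ++ tw false (a : ℤ) = _
    rw [List.append_assoc]
    congr 1
    unfold tw word
    rw [Int.natAbs_neg, Int.natAbs_natCast]
    rcases Nat.eq_zero_or_pos a with rfl | ha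
    · rfl
    · have h1 : ¬ (0 ≤ -(a : ℤ)) := by omega
      have h2 : (0 : ℤ) ≤ a := by omega
      rw [decide_eq_false h1, decide_eq_true h2]
      rfl

lemma KK_rep (a n : ℕ) : KK N (List.replicate (2 * n) (a : ℤ)) = ‖J12 N (wpow (word a) n)‖ := by
  rw [KK_even (by rw [List.length_replicate]; omega), cw_rep]

lemma word_dual (a : ℕ) : word a = dual (List.replicate a (0, true)) ++ List.replicate a (0, true) := by
  rw [dual_rep]
  rfl

lemma rep_lt (a : ℕ) : ∀ l ∈ List.replicate a ((0 : ℕ), true), l.1 < 2 := by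
  intro l hl
  rw [List.eq_of_mem_replicate hl]
  norm_num

/-- **log-convexity** for `C(a, …, a)` -/
theorem conv_rep (hN : 0 < N) (a n : ℕ) :
    ‖J12 N (wpow (word a) (n + 1))‖ ^ 2 ≤
      ‖J12 N (wpow (word a) n)‖ * ‖J12 N (wpow (word a) (n + 2))‖ := by
  rw [word_dual]
  exact logconv hN (rep_lt a) n

lemma wpow_zero (w : List (ℕ × Bool)) : wpow w 0 = [] := rfl

lemma wpow_one (w : List (ℕ × Bool)) : wpow w 1 = w := by simp [wpow]

/-- **lower bound** -/
theorem pow_rep (hN : 0 < N) (a n : ℕ) :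
    EE a N ^ n ≤ ‖J12 N (wpow (word a) n)‖ := by
  have h := geo (J := fun k => ‖J12 N (wpow (word a) k)‖) (fun _ => norm_nonneg _)
    (fun k => conv_rep hN a k) 0 n
  simp only [zero_add, wpow_zero, wpow_one, J12_nil hN, norm_one, one_pow, one_mul, mul_one] at h
  exact h

/-- **lower bound** for `C(1, …, 1)` -/
theorem pow_one' (hN : 0 < N) (n : ℕ) :
    EE 2 N ^ n ≤ (N : ℝ) ^ n * ‖J12 N (wpow (word 1) (n + 1))‖ := by
  have hN1 : (1 : ℝ) ≤ N := by exact_mod_cast hN
  have h := geo (J := fun k => ‖J12 N (wpow (word 1) k)‖) (fun _ => norm_nonneg _)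
    (fun k => conv_rep hN 1 k) 1 n
  have e1 : ‖J12 N (wpow (word 1) 1)‖ = N := by
    rw [wpow_one]
    exact EE_one_eq hN
  simp only [one_add_one_eq_two, J12_two hN, e1] at h
  rw [Nat.add_comm 1 n] at h
  have h0 : 0 ≤ EE 2 N ^ n := pow_nonneg (EE_nonneg _ _) _
  nlinarith

/-- **the growth of `C(a, …, a)`, lower bound** -/
theorem lb_rep {a : ℕ} (ha : 2 ≤ a) (n : ℕ) :
    LB (fun N => KK N (List.replicate (2 * n) (a : ℤ))) (n * WW a) := by
  obtain ⟨h1, h2⟩ := lim_EE ha
  have h3 := Lim.lb (EE_nonneg a) h2 h1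
  intro ε hε
  have hn : (0 : ℝ) < n + 1 := by positivity
  filter_upwards [h3 (ε / (n + 1)) (by positivity), eventually_gt_atTop 0] with N e1 e2
  rw [KK_rep]
  refine le_trans ?_ (pow_rep e2 a n)
  refine le_trans ?_ (pow_le_pow_left₀ (Real.exp_pos _).le e1 n)
  rw [← Real.exp_nat_mul]
  apply Real.exp_le_exp.2
  have hN : (0 : ℝ) ≤ N := Nat.cast_nonneg N
  have e3 : (n : ℝ) * ((WW a / (2 * Real.pi) - ε / (n + 1)) * N) =
      (n * WW a / (2 * Real.pi) - n * (ε / (n + 1))) * N := by ring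
  rw [e3]
  refine mul_le_mul_of_nonneg_right ?_ hN
  have e4 : (n : ℝ) * (ε / (n + 1)) ≤ ε := by
    rw [← mul_div_assoc, div_le_iff₀ hn]
    nlinarith
  linarith

/-- **the growth of `C(1, …, 1)`, lower bound** -/
theorem lb_one (n : ℕ) :
    LB (fun N => KK N (List.replicate (2 * (n + 1)) (1 : ℤ))) (n * (4 * GapVol.lob (Real.pi / 6))) := by
  have h6 := lob6
  have h3 := Lim.lb (EE_nonneg 2) (by positivity) lim_EE2
  intro ε hε
  have hn : (0 : ℝ) < n + 1 := by positivity
  have hε2 : 0 < ε / 2 := by positivity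
  filter_upwards [h3 (ε / 2 / (n + 1)) (by positivity), eventually_gt_atTop 0,
    poly_le n 1 hε2] with N e1 e2 e5
  rw [one_mul] at e5
  have h7 := KK_rep (N := N) 1 (n + 1)
  rw [Nat.cast_one] at h7
  rw [h7]
  have h8 := pow_one' e2 n
  have h9 : Real.exp ((n * (4 * GapVol.lob (Real.pi / 6)) / (2 * Real.pi) - ε / 2) * N) ≤
      EE 2 N ^ n := by
    refine le_trans ?_ (pow_le_pow_left₀ (Real.exp_pos _).le e1 n)
    rw [← Real.exp_nat_mul]
    apply Real.exp_le_exp.2
    have hN : (0 : ℝ) ≤ N := Nat.cast_nonneg N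
    have e3 : (n : ℝ) * ((4 * GapVol.lob (Real.pi / 6) / (2 * Real.pi) - ε / 2 / (n + 1)) * N) =
        (n * (4 * GapVol.lob (Real.pi / 6)) / (2 * Real.pi) - n * (ε / 2 / (n + 1))) * N := by ring
    rw [e3]
    refine mul_le_mul_of_nonneg_right ?_ hN
    have e4 : (n : ℝ) * (ε / 2 / (n + 1)) ≤ ε / 2 := by
      rw [← mul_div_assoc, div_le_iff₀ hn]
      nlinarith
    linarith
  have hN0 : (0 : ℝ) < (N : ℝ) ^ n := by
    have : (0 : ℝ) < N := by exact_mod_cast e2
    positivity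
  have h10 : Real.exp ((n * (4 * GapVol.lob (Real.pi / 6)) / (2 * Real.pi) - ε) * N) *
      Real.exp (ε / 2 * N) =
      Real.exp ((n * (4 * GapVol.lob (Real.pi / 6)) / (2 * Real.pi) - ε / 2) * N) := by
    rw [← Real.exp_add]
    congr 1
    ring
  have h11 : Real.exp (ε / 2 * N) *
      Real.exp ((n * (4 * GapVol.lob (Real.pi / 6)) / (2 * Real.pi) - ε) * N) ≤
      Real.exp (ε / 2 * N) * ‖J12 N (wpow (word 1) (n + 1))‖ := by
    rw [mul_comm, h10]
    refine (h9.trans h8).trans ?_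
    exact mul_le_mul_of_nonneg_right e5 (norm_nonneg _)
  exact le_of_mul_le_mul_left h11 (Real.exp_pos _)

/-- **powers of doubled words** -/
theorem pow_double (hN : 0 < N) {w : List (ℕ × Bool)} (hw : ∀ l ∈ w, l.1 < 2) (n : ℕ) :
    ‖J12 N (dual w ++ w)‖ ^ n ≤ ‖J12 N (wpow (dual w ++ w) n)‖ := by
  have h := geo (J := fun k => ‖J12 N (wpow (dual w ++ w) k)‖) (fun _ => norm_nonneg _)
    (fun k => logconv hN hw k) 0 n
  simp only [zero_add, wpow_zero, wpow_one, J12_nil hN, norm_one, one_pow, one_mul, mul_one] at h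
  exact h

/-- `(c, c̄)^n` -/
def pal (l : List ℤ) (n : ℕ) : List ℤ := (List.replicate n (l ++ l.reverse)).flatten

lemma pal_len (l : List ℤ) (n : ℕ) : (pal l n).length % 2 = 0 := by
  unfold pal
  induction n with
  | zero => rfl
  | succ n ih =>
    rw [List.replicate_succ, List.flatten_cons, List.length_append, List.length_append,
      List.length_reverse]
    omega

lemma cw_pal (l : List ℤ) (n : ℕ) :
    cw true (pal l n) = wpow (dual (cw true l) ++ cw true l) n := by
  induction n with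
  | zero => rfl
  | succ n ih =>
    have e1 : pal l (n + 1) = (l ++ l.reverse) ++ pal l n := by
      unfold pal
      rw [List.replicate_succ, List.flatten_cons]
    have e2 : wpow (dual (cw true l) ++ cw true l) (n + 1) =
        wpow (dual (cw true l) ++ cw true l) n ++ (dual (cw true l) ++ cw true l) := by
      unfold wpow
      rw [List.replicate_add, List.flatten_append]
      simp
    have e3 : par true (l ++ l.reverse).length = true := by
      unfold par
      rw [if_pos (by rw [List.length_append, List.length_reverse]; omega)]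
    rw [e1, cw_append, e3, ih, e2, cw_append, dual_cw]

/-- **log-convexity for `C((c, c̄)^n)`** -/
theorem KK_conv (hN : 0 < N) (l : List ℤ) (n : ℕ) :
    KK N (pal l (n + 1)) ^ 2 ≤ KK N (pal l n) * KK N (pal l (n + 2)) := by
  rw [KK_even (pal_len _ _), KK_even (pal_len _ _), KK_even (pal_len _ _), cw_pal, cw_pal, cw_pal]
  exact logconv hN (cw_lt _ _) n

/-- **powers** -/
theorem KK_pow (hN : 0 < N) (l : List ℤ) (n : ℕ) :
    KK N (l ++ l.reverse) ^ n ≤ KK N (pal l n) := by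
  have e : KK N (l ++ l.reverse) = ‖J12 N (dual (cw true l) ++ cw true l)‖ := by
    rw [KK_even (by rw [List.length_append, List.length_reverse]; omega), cw_append, dual_cw]
  rw [e, KK_even (pal_len _ _), cw_pal]
  exact pow_double hN (cw_lt _ _) n

end Pool.Agent.Q66.TB
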