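import Pool.Agent.Q66.TB.Base

/-!
# The mirror image of a double twist tangle has the same invariant at the Kashaev root
-/

set_option autoImplicit false
set_option maxHeartbeats 1000000

namespace Pool.Agent.Q66.TB

open Finset Matrix Pool.Agent.H550R3.Jones Filter Topology Pool.Agent.W709.RT
open scoped Kronecker

variable {N : ℕ}

/-- the mirror image of `word a` -/
def word' (a : ℕ) : List (ℕ × Bool) := List.replicate a (1, true) ++ List.replicate a (0, false)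

lemma rep_word' {ι : Type} [Fintype ι] [DecidableEq ι] (P Q : Matrix (ι × ι) (ι × ι) ℂ) (a : ℕ) :
    rep P Q 3 (word' a) = ((on23 P) ^ a * (on12 Q) ^ a).submatrix e3 e3 := by
  have h : rep P Q 3 (word' a) = (gen P 3 1) ^ a * (gen Q 3 0) ^ a := by
    unfold rep word'
    rw [List.map_append, List.prod_append, List.map_replicate, List.map_replicate,
      List.prod_replicate, List.prod_replicate]
    simp
  rw [h, gen_zero, gen_one, submatrix_pow, submatrix_pow, submatrix_mul_equiv]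

lemma tang_word' (N a : ℕ) (v : ℂ) (i j : Fin N) : tang N (word' a) v i j =
    ∑ p : Fin N × Fin N, ∑ q : Fin N × Fin N,
      cap N v p * ((on23 (crossP N v)) ^ a * (on12 (crossN N v)) ^ a) (p.1, (p.2, i))
        (j, (q.1, q.2)) * cup N v q := by
  unfold tang
  rw [rep_word']
  rfl

lemma tang_pr' (v : ℂ) (hN : 0 < N) (a : ℕ) : tang N (word' a) v ⟨0, hN⟩ ⟨0, hN⟩ =
    pr v hN (((on23 (crossP N v)) ^ a * (on12 (crossN N v)) ^ a) *ᵥ F0 v N) := by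
  rw [tang_word']
  unfold pr
  apply Finset.sum_congr rfl
  intro p _
  generalize (on23 (crossP N v)) ^ a * (on12 (crossN N v)) ^ a = M
  have h : (M *ᵥ F0 v N) (p.1, (p.2, ⟨0, hN⟩)) =
      ∑ q : Fin N × Fin N, M (p.1, (p.2, ⟨0, hN⟩)) (⟨0, hN⟩, q) * cup N v q := by
    unfold Matrix.mulVec dotProduct
    rw [Fintype.sum_prod_type, Finset.sum_eq_single (⟨0, hN⟩ : Fin N)]
    · apply Finset.sum_congr rfl
      intro q _
      unfold F0
      rw [if_pos rfl]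
    · intro x _ hx
      apply Finset.sum_eq_zero
      intro q _
      unfold F0
      rw [if_neg (fun hc => hx (Fin.ext hc)), mul_zero]
    · intro h
      exact absurd (Finset.mem_univ _) h
  rw [h, Finset.mul_sum]
  apply Finset.sum_congr rfl
  intro q _
  ring

/-- at generic `v` the invariant of the mirror image is `JD` -/
theorem tang_generic' {u : ℂ} (hu : Gen u) (hN : 0 < N) (a : ℕ) :
    tang N (word' a) (u ^ 2) ⟨0, hN⟩ ⟨0, hN⟩ =
      Pool.Agent.H112R4.VL.JD (a : ℤ) (-(a : ℤ)) N (u ^ 2) := by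
  have hu0 : u ≠ 0 := hu.1
  have hv : u ^ 2 ≠ 0 := pow_ne_zero 2 hu0
  obtain ⟨φ, ψ, h⟩ := Pool.Agent.H897R.J.taskDec Pool.Agent.H345J.taskMod Pool.Agent.H345J.taskInt
    u hu N
  have hR : Rh u (irr (u ^ 2) N) (irr (u ^ 2) N) = Fn φ ψ (lam u N) := Fn_eq h _ _ h.eig
  obtain ⟨hP, hQ⟩ := Pool.Agent.H559R3.J.taskCross u hu N
  set g : ℕ → ℂ := fun c => TT (u ^ 2) c ^ a with hg
  set g' : ℕ → ℂ := fun c => (TT (u ^ 2) c ^ a)⁻¹ with hg'
  have hfr : fr u N ≠ 0 := by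
    unfold fr
    exact mul_ne_zero (pow_ne_zero _ (by norm_num)) (zpow_ne_zero _ hu0)
  have h1 : (on23 (crossP N (u ^ 2))) ^ a = ((u ^ (-((N : ℤ) ^ 2 - 1))) ^ a * fr u N ^ a) •
      on23 (Fn φ ψ (fun d => g (N - 1 - d))) := by
    rw [hP, hR, on23_pow, smul_pow, Fn_pow h]
    have : (fun d => lam u N d ^ a) = fun d : Fin N => fr u N ^ a * g (N - 1 - d) := by
      funext d
      rw [lam_eq hu0, mul_pow]
    rw [this, Fn_smul, smul_smul, on23_smul]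
  have h2 : (on12 (crossN N (u ^ 2))) ^ a = ((u ^ ((N : ℤ) ^ 2 - 1)) ^ a * (fr u N ^ a)⁻¹) •
      on12 (Fn φ ψ (fun d => g' (N - 1 - d))) := by
    rw [hQ, Rhi_Fn hu h, on12_pow, smul_pow, Fn_pow h]
    have : (fun d => (lam u N d)⁻¹ ^ a) = fun d : Fin N => (fr u N ^ a)⁻¹ * g' (N - 1 - d) := by
      funext d
      rw [lam_eq hu0, inv_pow, mul_pow, mul_inv]
    rw [this, Fn_smul, smul_smul, on12_smul]
  have h3 : (u ^ (-((N : ℤ) ^ 2 - 1))) ^ a * fr u N ^ a *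
      ((u ^ ((N : ℤ) ^ 2 - 1)) ^ a * (fr u N ^ a)⁻¹) = 1 := by
    have e1 : (u ^ ((N : ℤ) ^ 2 - 1)) ^ a * (u ^ (-((N : ℤ) ^ 2 - 1))) ^ a = 1 := by
      rw [← mul_pow, ← zpow_add₀ hu0, add_neg_cancel, zpow_zero, one_pow]
    have e2 : (fr u N ^ a)⁻¹ * fr u N ^ a = 1 := inv_mul_cancel₀ (pow_ne_zero _ hfr)
    calc _ = ((u ^ ((N : ℤ) ^ 2 - 1)) ^ a * (u ^ (-((N : ℤ) ^ 2 - 1))) ^ a) *
        ((fr u N ^ a)⁻¹ * fr u N ^ a) := by ring
      _ = 1 := by rw [e1, e2, one_mul]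
  rw [tang_pr', h1, h2, smul_mul_smul_comm, h3, one_smul, ← Matrix.mulVec_mulVec]
  have hb : ∀ k : ℕ, 0 < k → k < N → br (u ^ 2) k ≠ 0 := fun k hk _ => hu.2 k hk
  rw [eval_pair hu0 h hN hb (ui_inj hu)]
  unfold Pool.Agent.H112R4.VL.JD
  apply Finset.sum_congr rfl
  intro i hi
  have hbrf : EvenVol.brf (u ^ 2) (2 * i + 1) ≠ 0 := by
    unfold EvenVol.brf
    rw [Finset.prod_ne_zero_iff]
    intro j _
    have := hu.2 (j + 1) (by omega)
    push_cast at this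
    exact this
  rw [Pool.Agent.W709.VC.gamH_nodes hv _ hbrf, Pool.Agent.W709.VC.gamH_nodes hv _ hbrf]
  have e1 : ∑ k ∈ range (i + 1), Lagrange.nodalWeight (range (i + 1))
      (fun j : ℕ => Pool.Agent.W709.VC.uu (u ^ 2) (j : ℤ)) k *
        ((-1) ^ k * (u ^ 2) ^ (k * (k + 1))) ^ (a : ℤ) = dd (ui (u ^ 2)) g i := by
    unfold dd
    apply Finset.sum_congr rfl
    intro k _
    rw [zpow_natCast]
    rfl
  have e2 : ∑ k ∈ range (i + 1), Lagrange.nodalWeight (range (i + 1))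
      (fun j : ℕ => Pool.Agent.W709.VC.uu (u ^ 2) (j : ℤ)) k *
        ((-1) ^ k * (u ^ 2) ^ (k * (k + 1))) ^ (-(a : ℤ)) = dd (ui (u ^ 2)) g' i := by
    unfold dd
    apply Finset.sum_congr rfl
    intro k _
    rw [_root_.zpow_neg, zpow_natCast]
    rfl
  rw [e1, e2]
  have e3 : ∏ l ∈ range i, ci (u ^ 2) N (l + 1) = (-1) ^ i *
      (∏ j ∈ range i, (EvenVol.br (u ^ 2) ((N : ℤ) + ((j : ℤ) + 1)) *
        EvenVol.br (u ^ 2) ((N : ℤ) - ((j : ℤ) + 1)))) *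
        (EvenVol.brf (u ^ 2) i * EvenVol.brf (u ^ 2) i) := by
    have : ((-1 : ℂ)) ^ i = ∏ _j ∈ range i, (-1 : ℂ) := by simp
    rw [this]
    unfold EvenVol.brf
    rw [← Finset.prod_mul_distrib, ← Finset.prod_mul_distrib, ← Finset.prod_mul_distrib]
    apply Finset.prod_congr rfl
    intro l _
    unfold ci EvenVol.br br
    push_cast
    ring
  rw [e3]
  ring

/-- the same for all `v` off the unit circle -/
theorem tang_off' {v : ℂ} (hv : v ≠ 0) (hv1 : ‖v‖ ≠ 1) (hN : 0 < N) (a : ℕ) :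
    tang N (word' a) v ⟨0, hN⟩ ⟨0, hN⟩ = tang N (word a) v ⟨0, hN⟩ ⟨0, hN⟩ := by
  obtain ⟨u, hu⟩ : ∃ u : ℂ, u ^ 2 = v := ⟨v ^ (1 / 2 : ℂ), by
    rw [← Complex.cpow_nat_mul]
    norm_num⟩
  have hg : Gen u := by
    refine ⟨fun h0 => hv (by rw [← hu, h0]; norm_num), fun n hn hbr => ?_⟩
    rw [hu] at hbr
    unfold br at hbr
    have h1 : v ^ (n : ℤ) = v ^ (-(n : ℤ)) := sub_eq_zero.1 hbr
    have h2 : v ^ (2 * n) = 1 := by
      have : v ^ (2 * n) = v ^ (n : ℤ) * v ^ (n : ℤ) := by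
        rw [← zpow_add₀ hv, ← two_mul]
        exact_mod_cast (zpow_natCast v (2 * n)).symm
      rw [this]
      nth_rewrite 2 [h1]
      rw [← zpow_add₀ hv, add_neg_cancel, zpow_zero]
    have h3 : ‖v‖ ^ (2 * n) = 1 := by rw [← norm_pow, h2, norm_one]
    exact hv1 ((pow_eq_one_iff_of_nonneg (norm_nonneg v) (by omega)).1 h3)
  have h1 := tang_generic' hg hN a
  have h2 := tang_generic hg hN a
  rw [hu] at h1 h2
  rw [h1, h2]

/-- the mirror image has the same invariant at the root of unity -/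
theorem mirror (hN : 0 < N) (a : ℕ) :
    tang N (word' a) (EvenVol.v0 N) ⟨0, hN⟩ ⟨0, hN⟩ =
      tang N (word a) (EvenVol.v0 N) ⟨0, hN⟩ ⟨0, hN⟩ := by
  have hne : (𝓝[{v : ℂ | ‖v‖ ≠ 1}] (EvenVol.v0 N)).NeBot := by
    rw [← mem_closure_iff_nhdsWithin_neBot, Metric.mem_closure_iff]
    intro ε hε
    refine ⟨((1 + ε / 2 : ℝ) : ℂ) * EvenVol.v0 N, ?_, ?_⟩
    · simp only [Set.mem_ofPred_eq, norm_mul, v0_norm, mul_one, Complex.norm_real, Real.norm_eq_abs]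
      rw [abs_of_pos (by linarith)]
      linarith
    · rw [dist_eq_norm]
      have : EvenVol.v0 N - ((1 + ε / 2 : ℝ) : ℂ) * EvenVol.v0 N =
          ((-(ε / 2) : ℝ) : ℂ) * EvenVol.v0 N := by
        push_cast
        ring
      rw [this, norm_mul, v0_norm, mul_one, Complex.norm_real, Real.norm_eq_abs, abs_neg,
        abs_of_pos (by linarith)]
      linarith
  have h1 : Tendsto (fun v => tang N (word' a) v ⟨0, hN⟩ ⟨0, hN⟩)
      (𝓝[{v : ℂ | ‖v‖ ≠ 1}] (EvenVol.v0 N))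
      (𝓝 (tang N (word' a) (EvenVol.v0 N) ⟨0, hN⟩ ⟨0, hN⟩)) :=
    (tang_cont (v0_ne N) br_v0 _ _ _).mono_left nhdsWithin_le_nhds
  have h2 : Tendsto (fun v => tang N (word a) v ⟨0, hN⟩ ⟨0, hN⟩)
      (𝓝[{v : ℂ | ‖v‖ ≠ 1}] (EvenVol.v0 N))
      (𝓝 (tang N (word a) (EvenVol.v0 N) ⟨0, hN⟩ ⟨0, hN⟩)) :=
    (tang_cont (v0_ne N) br_v0 _ _ _).mono_left nhdsWithin_le_nhds
  have h3 : (fun v => tang N (word' a) v ⟨0, hN⟩ ⟨0, hN⟩)
      =ᶠ[𝓝[{v : ℂ | ‖v‖ ≠ 1}] (EvenVol.v0 N)] fun v => tang N (word a) v ⟨0, hN⟩ ⟨0, hN⟩ := by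
    have hv0 : ∀ᶠ v in 𝓝[{v : ℂ | ‖v‖ ≠ 1}] (EvenVol.v0 N), v ≠ 0 :=
      nhdsWithin_le_nhds (isOpen_ne.mem_nhds (v0_ne N))
    filter_upwards [self_mem_nhdsWithin, hv0] with v hv hv'
    exact tang_off' hv' hv hN a
  exact tendsto_nhds_unique h1 (h2.congr' h3.symm)

end Pool.Agent.Q66.TB
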