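import Pool.Agent.Q66.TB.Growth

/-!
# Two-bridge links in Conway notation, upper and lower bounds
-/

set_option autoImplicit false

namespace Pool.Agent.Q66.TB

open Matrix Finset Filter Topology Pool.Agent.W715.VC Pool.Agent.Q66.RP
open Pool.Agent.W719.BX (uA)
open Pool.Agent.H550R3.Jones (on12 on23 crossP)
open Pool.Agent.W709.RT (jt jt_v0 word)

variable {N : ℕ}

/-- the braid word of the twist regions `a_1, a_2, …` (the last letter acts first) -/
def cw : Bool → List ℤ → List (ℕ × Bool)
  | _, [] => []
  | b, a :: l => cw (!b) l ++ tw (!b) (if b then a else -a)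

lemma cw_lt (b : Bool) (l : List ℤ) : ∀ x ∈ cw b l, x.1 < 2 := by
  induction l generalizing b with
  | nil => intro x hx; simp [cw] at hx
  | cons a l ih =>
    unfold cw
    exact app_lt (ih _) (tw_lt _ _)

/-- parity -/
def par (b : Bool) (n : ℕ) : Bool := if n % 2 = 0 then b else !b

lemma par_succ (b : Bool) (n : ℕ) : par b (n + 1) = par (!b) n := by
  unfold par
  rcases Nat.mod_two_eq_zero_or_one n with h | h
  · rw [if_neg (by omega), if_pos h]
  · rw [if_pos (by omega), if_neg (by omega), Bool.not_not]

lemma cw_append (b : Bool) (l m : List ℤ) :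
    cw b (l ++ m) = cw (par b l.length) m ++ cw b l := by
  induction l generalizing b with
  | nil => simp [cw, par]
  | cons a l ih =>
    show cw (!b) (l ++ m) ++ tw (!b) (if b then a else -a) =
      cw (par b (l.length + 1)) m ++ (cw (!b) l ++ tw (!b) (if b then a else -a))
    rw [ih, par_succ, List.append_assoc]

lemma dual_tw (k : Bool) (a : ℤ) : dual (tw k a) = tw (!k) (-a) := by
  unfold tw
  rw [dual_rep, Int.natAbs_neg]
  by_cases h0 : a = 0
  · subst h0
    simp
  · congr 1
    have h1 : (!decide (0 ≤ a)) = decide (0 ≤ -a) := by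
      by_cases h : 0 ≤ a
      · have : ¬ (0 ≤ -a) := by omega
        rw [decide_eq_true h, decide_eq_false this]
        rfl
      · have : 0 ≤ -a := by omega
        rw [decide_eq_false h, decide_eq_true this]
        rfl
    rw [h1]
    cases k <;> rfl

lemma dual_append (u w : List (ℕ × Bool)) : dual (u ++ w) = dual w ++ dual u := by
  unfold dual
  rw [List.map_append, List.reverse_append]

/-- the reflected word -/
lemma dual_cw (b : Bool) (l : List ℤ) : dual (cw b l) = cw (par b l.length) l.reverse := by
  induction l generalizing b with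
  | nil => rfl
  | cons a l ih =>
    rw [List.reverse_cons, cw_append, List.length_reverse, List.length_cons, par_succ]
    have h1 : par (par (!b) l.length) l.length = !b := by
      unfold par
      rcases Nat.mod_two_eq_zero_or_one l.length with h | h
      · rw [if_pos h, if_pos h]
      · rw [if_neg (by omega), if_neg (by omega), Bool.not_not]
    rw [h1, ← ih]
    show dual (cw (!b) l ++ tw (!b) (if b then a else -a)) =
      ([] ++ tw (!(!b)) (if !b then a else -a)) ++ dual (cw (!b) l)
    rw [dual_append, dual_tw, List.nil_append]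
    congr 1
    cases b <;> simp

/-- the Kashaev invariant of `C(a_1, …, a_r)` -/
noncomputable def KK (N : ℕ) (l : List ℤ) : ℝ :=
  if l.length % 2 = 0 then ‖J12 N (cw true l)‖ else ‖J23 N (cw true l)‖

lemma KK_even {l : List ℤ} (h : l.length % 2 = 0) : KK N l = ‖J12 N (cw true l)‖ := if_pos h

lemma KK_nonneg (l : List ℤ) : 0 ≤ KK N l := by
  unfold KK
  split_ifs <;> exact norm_nonneg _

/-! ### the upper bound -/

/-- the words of the twist regions -/
def syl : Bool → List ℤ → List (List (ℕ × Bool))
  | _, [] => []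
  | b, a :: l => syl (!b) l ++ [tw (!b) (if b then a else -a)]

lemma syl_flatten (b : Bool) (l : List ℤ) : (syl b l).flatten = cw b l := by
  induction l generalizing b with
  | nil => rfl
  | cons a l ih =>
    unfold syl cw
    rw [List.flatten_append, ih]
    simp

lemma syl_lt (b : Bool) (l : List ℤ) : ∀ u ∈ syl b l, ∀ x ∈ u, x.1 < 2 := by
  induction l generalizing b with
  | nil => intro u hu; simp [syl] at hu
  | cons a l ih =>
    intro u hu
    unfold syl at hu
    rw [List.mem_append, List.mem_singleton] at hu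
    rcases hu with h | rfl
    · exact ih _ u h
    · exact tw_lt _ _

/-- the contribution of the middle regions -/
noncomputable def mm (N : ℕ) (l : List ℤ) : ℝ :=
  (l.map fun a => kt (uA a.natAbs ++ dual (uA a.natAbs)) N + (N : ℝ) ^ 3).prod

lemma syl_prod (b : Bool) (l : List ℤ) :
    ((syl b l).map fun u => kt (u ++ dual u) N + (N : ℝ) ^ 3).prod = mm N l := by
  induction l generalizing b with
  | nil => rfl
  | cons a l ih =>
    unfold syl mm
    rw [List.map_append, List.prod_append, ih, List.map_cons, List.prod_cons, List.map_cons,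
      List.prod_cons, List.map_nil, List.prod_nil, mul_one, kt_tw]
    have : (if b = true then a else -a).natAbs = a.natAbs := by
      split_ifs
      · rfl
      · exact Int.natAbs_neg a
    rw [this, mul_comm]
    rfl

/-- **the reflection inequality for two-bridge links**, with both end regions -/
theorem KK_le (hN : 0 < N) (a z : ℤ) (l : List ℤ) :
    KK N (a :: (l ++ [z])) ^ 2 ≤ EE z.natAbs N * (mm N l * EE a.natAbs N) := by
  have h1 : cw true (a :: (l ++ [z])) =
      tw (!(par false l.length)) (if par false l.length then z else -z) ++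
        ((syl false l).flatten ++ tw false a) := by
    show cw false (l ++ [z]) ++ tw false a = _
    rw [cw_append, syl_flatten, List.append_assoc]
    rfl
  unfold KK
  rw [h1]
  have hlen : (a :: (l ++ [z])).length = l.length + 2 := by simp
  rw [hlen]
  rcases Nat.mod_two_eq_zero_or_one l.length with h | h
  · have hp : par false l.length = false := by unfold par; rw [if_pos h]
    rw [if_pos (by omega), hp]
    have h2 := refl12_mid hN (w1 := tw true (-z)) (w2 := tw false a) (tw_lt _ _) (tw_lt _ _)
      (syl false l) (syl_lt _ _)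
    rw [end_left12 hN, end_right hN, Int.natAbs_neg, syl_prod] at h2
    exact h2
  · have hp : par false l.length = true := by unfold par; rw [if_neg (by omega)]; rfl
    rw [if_neg (by omega), hp]
    have h2 := refl23_mid hN (w1 := tw false z) (w2 := tw false a) (tw_lt _ _) (tw_lt _ _)
      (syl false l) (syl_lt _ _)
    rw [end_left23 hN, end_right hN, syl_prod] at h2
    exact h2

lemma mm_nonneg (l : List ℤ) : 0 ≤ mm N l := by
  unfold mm
  refine List.prod_nonneg fun a ha => ?_
  rw [List.mem_map] at ha
  obtain ⟨b, _, rfl⟩ := ha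
  have := kt_nonneg (uA b.natAbs ++ dual (uA b.natAbs)) N
  positivity

/-- **the upper bound** -/
theorem ub_KK (a z : ℤ) (l : List ℤ) :
    UB (fun N => KK N (a :: (l ++ [z])))
      ((WW a.natAbs + WW z.natAbs + (l.map fun b => VV b.natAbs).sum) / 2) := by
  intro ε hε
  have hpi := Real.pi_pos
  have h1 := ub_prod (l.map fun b => (kt (uA b.natAbs ++ dual (uA b.natAbs)), VV b.natAbs))
    (fun q hq => by
      rw [List.mem_map] at hq
      obtain ⟨p, hp, rfl⟩ := hq
      exact ub_VV _) (show 0 < ε / 2 by positivity)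
  have h2 := (ub_EE a.natAbs).1 (ε / 2) (by positivity)
  have h3 := (ub_EE z.natAbs).1 (ε / 2) (by positivity)
  filter_upwards [h1, h2, h3, eventually_gt_atTop 0] with N e1 e2 e3 e4
  have e5 := e1 fun q hq => by
    rw [List.mem_map] at hq
    obtain ⟨p, hp, rfl⟩ := hq
    have := kt_nonneg (uA p.natAbs ++ dual (uA p.natAbs)) N
    positivity
  rw [List.map_map, List.map_map] at e5
  have e6 : mm N l ≤ Real.exp (((l.map fun b => VV b.natAbs).sum / (2 * Real.pi) + ε / 2) * N) := e5
  have e7 := KK_le e4 a z l
  have e8 : KK N (a :: (l ++ [z])) ^ 2 ≤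
      (Real.exp (((WW a.natAbs + WW z.natAbs + (l.map fun b => VV b.natAbs).sum) / 2 /
        (2 * Real.pi) + ε) * N)) ^ 2 := by
    refine e7.trans ?_
    have f0 : EE z.natAbs N * (mm N l * EE a.natAbs N) ≤
        Real.exp ((WW z.natAbs / (2 * Real.pi) + ε / 2) * N) *
          (Real.exp (((l.map fun b => VV b.natAbs).sum / (2 * Real.pi) + ε / 2) * N) *
            Real.exp ((WW a.natAbs / (2 * Real.pi) + ε / 2) * N)) := by
      refine mul_le_mul e3 (mul_le_mul e6 e2 (EE_nonneg _ _) (Real.exp_pos _).le)
        (mul_nonneg (mm_nonneg l) (EE_nonneg _ _)) (Real.exp_pos _).le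
    refine f0.trans ?_
    rw [← Real.exp_add, ← Real.exp_add, ← Real.exp_nat_mul]
    apply Real.exp_le_exp.2
    have hN : (0 : ℝ) ≤ N := Nat.cast_nonneg N
    have f1 : (2 : ℕ) * (((WW a.natAbs + WW z.natAbs + (l.map fun b => VV b.natAbs).sum) / 2 /
        (2 * Real.pi) + ε) * (N : ℝ)) =
        (WW z.natAbs / (2 * Real.pi) + ε / 2) * N +
        (((l.map fun b => VV b.natAbs).sum / (2 * Real.pi) + ε / 2) * N +
          (WW a.natAbs / (2 * Real.pi) + ε / 2) * N) + ε / 2 * N := by
      push_cast
      ring
    rw [f1]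
    have : 0 ≤ ε / 2 * N := by positivity
    linarith
  exact ub_word.le_of_sq_le_sq e8 (Real.exp_pos _).le

/-! ### lower bounds -/

lemma Dl_norm (hN : 0 < N) : ‖Hf (Y0 N) (Y0 N)‖ = 1 := by
  obtain ⟨c, hc, hY⟩ := Y0_eq hN
  have h1 := Dl_end hN (w := []) (by simp) (X0 N)
  rw [rep3_nil, one_mulVec, List.map_nil, rep3_nil, one_mulVec] at h1
  have h2 := J12_nil hN
  unfold J12 at h2
  rw [rep3_nil, one_mulVec] at h2
  rw [hY, Hf_smul_left, Hf_smul_right, h1, h2, mul_one, norm_mul, RCLike.norm_conj, hc, one_mul]

/-- **doubling**: `|⟨C(a_1, …, a_r)⟩|² ≤ |⟨C(a_1, …, a_r, a_r, …, a_1)⟩|` -/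
theorem KK_double (hN : 0 < N) (l : List ℤ) : KK N l ^ 2 ≤ KK N (l ++ l.reverse) := by
  have hm : N - 1 < N := by omega
  have hm2 : N ≤ 2 * (N - 1) + 1 := by omega
  have hX := X0_InK N
  have e1 : cw true (l ++ l.reverse) = dual (cw true l) ++ cw true l := by
    rw [cw_append, dual_cw]
  have e2 : Hf (rep3 N (cw true l) *ᵥ X0 N) (rep3 N (cw true l) *ᵥ X0 N) =
      J12 N (dual (cw true l) ++ cw true l) := by
    unfold J12
    rw [rep3_append, ← Matrix.mulVec_mulVec, Hf_rep hN dual_lt, dual_dual (cw_lt _ _)]
  have e3 : KK N (l ++ l.reverse) = ‖J12 N (dual (cw true l) ++ cw true l)‖ := by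
    rw [KK_even (by rw [List.length_append, List.length_reverse]; omega), e1]
  rw [e3, ← e2]
  have hw : InK (N - 1) (rep3 N (cw true l) *ᵥ X0 N) := (good_rep3 _).InK hX
  unfold KK
  split_ifs
  · have h := cs hm hm2 hX hw
    have h2 := J12_nil hN
    unfold J12 at h2
    rw [rep3_nil, one_mulVec] at h2
    rw [h2, norm_one, one_mul] at h
    exact h
  · have hY : InK (N - 1) (Y0 N) := by
      obtain ⟨c, _, hY⟩ := Y0_eq hN
      rw [hY]
      exact InK_smul (Dl_InK hX) c
    have h := cs hm hm2 hY hw
    rw [Dl_norm hN, one_mul] at h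
    exact h

/-- **log-convexity** for the powers of a doubled word -/
theorem logconv (hN : 0 < N) {w : List (ℕ × Bool)} (hw : ∀ l ∈ w, l.1 < 2) (n : ℕ) :
    ‖J12 N (wpow (dual w ++ w) (n + 1))‖ ^ 2 ≤
      ‖J12 N (wpow (dual w ++ w) n)‖ * ‖J12 N (wpow (dual w ++ w) (n + 2))‖ := by
  set v := dual w ++ w with hv
  have hvd : dual v = v := by rw [hv, dual_append, dual_dual hw]
  have hvl : ∀ l ∈ v, l.1 < 2 := app_lt dual_lt hw
  have hadd : ∀ i j, wpow v (i + j) = wpow v i ++ wpow v j := by
    intro i j
    unfold wpow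
    rw [List.replicate_add, List.flatten_append]
  have h1 : wpow v 1 = v := by simp [wpow]
  have hpl : ∀ j, ∀ l ∈ wpow v j, l.1 < 2 := by
    intro j l hl
    unfold wpow at hl
    rw [List.mem_flatten] at hl
    obtain ⟨u, hu, hl⟩ := hl
    rw [List.eq_of_mem_replicate hu] at hl
    exact hvl l hl
  have hpd : ∀ j, dual (wpow v j) = wpow v j := by
    intro j
    induction j with
    | zero => rfl
    | succ j ih =>
      calc dual (wpow v (j + 1)) = dual (wpow v j ++ wpow v 1) := by rw [hadd]
        _ = wpow v 1 ++ wpow v j := by rw [dual_append, ih, h1, hvd]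
        _ = wpow v (1 + j) := (hadd 1 j).symm
        _ = wpow v (j + 1) := by rw [Nat.add_comm]
  rcases Nat.even_or_odd n with ⟨j, rfl⟩ | ⟨j, rfl⟩
  · have h := refl12 hN (w1 := wpow v j) (w2 := wpow v (j + 1)) (hpl _) (hpl _)
    rw [hpd, hpd, ← hadd, ← hadd, ← hadd] at h
    have e1 : j + (j + 1) = j + j + 1 := by ring
    have e2 : j + 1 + (j + 1) = j + j + 2 := by ring
    rw [e1, e2] at h
    exact h
  · have h := refl12 hN (w1 := wpow v j ++ dual w) (w2 := w ++ wpow v (j + 1))
      (app_lt (hpl _) dual_lt) (app_lt hw (hpl _))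
    rw [dual_append, dual_append, hpd, hpd, dual_dual hw] at h
    have key : ∀ i k, wpow v i ++ dual w ++ (w ++ wpow v k) = wpow v (i + (1 + k)) := by
      intro i k
      calc wpow v i ++ dual w ++ (w ++ wpow v k) = wpow v i ++ ((dual w ++ w) ++ wpow v k) := by
            simp only [List.append_assoc]
        _ = wpow v i ++ (wpow v 1 ++ wpow v k) := by rw [h1]
        _ = wpow v (i + (1 + k)) := by rw [hadd, hadd]
    rw [key, key, key] at h
    have e1 : j + (1 + (j + 1)) = 2 * j + 1 + 1 := by ring
    have e2 : j + (1 + j) = 2 * j + 1 := by ring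
    have e3 : j + 1 + (1 + (j + 1)) = 2 * j + 1 + 2 := by ring
    rw [e1, e2, e3] at h
    exact h

/-- a log-convex sequence grows at least geometrically -/
lemma geo {J : ℕ → ℝ} (h0 : ∀ n, 0 ≤ J n) (hJ : ∀ n, J (n + 1) ^ 2 ≤ J n * J (n + 2)) (m n : ℕ) :
    J (m + 1) ^ n * J m ≤ J m ^ n * J (m + n) := by
  rcases (h0 m).lt_or_eq with hm | hm
  · rcases (h0 (m + 1)).lt_or_eq with hm1 | hm1
    · -- all later terms are positive and the ratios increase
      have key : ∀ k, 0 < J (m + k) ∧ J (m + 1) * J (m + k) ≤ J m * J (m + (k + 1)) := by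
        intro k
        induction k with
        | zero => exact ⟨hm, by rw [add_zero, zero_add, mul_comm]⟩
        | succ k ih =>
          obtain ⟨i1, i2⟩ := ih
          have p1 : 0 < J (m + (k + 1)) := by
            by_contra hc
            have : J (m + (k + 1)) = 0 := le_antisymm (not_lt.1 hc) (h0 _)
            rw [this, mul_zero] at i2
            have := mul_pos hm1 i1
            linarith
          refine ⟨p1, ?_⟩
          have h2 := hJ (m + k)
          have e1 : m + k + 1 = m + (k + 1) := by ring
          have e2 : m + k + 2 = m + (k + 1 + 1) := by ring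
          rw [e1, e2] at h2
          -- `J(m+1) J(k+1) J(k) ≤ J m J(k+1)^2 ≤ J m J(k) J(k+2)`
          have h3 : J (m + 1) * J (m + (k + 1)) * J (m + k) ≤
              J m * J (m + (k + 1 + 1)) * J (m + k) := by
            calc J (m + 1) * J (m + (k + 1)) * J (m + k)
                = J (m + (k + 1)) * (J (m + 1) * J (m + k)) := by ring
              _ ≤ J (m + (k + 1)) * (J m * J (m + (k + 1))) :=
                mul_le_mul_of_nonneg_left i2 p1.le
              _ = J m * J (m + (k + 1)) ^ 2 := by ring
              _ ≤ J m * (J (m + k) * J (m + (k + 1 + 1))) :=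
                mul_le_mul_of_nonneg_left h2 hm.le
              _ = _ := by ring
          exact le_of_mul_le_mul_right h3 i1
      induction n with
      | zero => simp
      | succ n ih =>
        have h1 := (key n).2
        calc J (m + 1) ^ (n + 1) * J m = J (m + 1) * (J (m + 1) ^ n * J m) := by ring
          _ ≤ J (m + 1) * (J m ^ n * J (m + n)) := mul_le_mul_of_nonneg_left ih hm1.le
          _ = J m ^ n * (J (m + 1) * J (m + n)) := by ring
          _ ≤ J m ^ n * (J m * J (m + (n + 1))) :=
            mul_le_mul_of_nonneg_left h1 (by positivity)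
          _ = _ := by ring
    · rcases Nat.eq_zero_or_pos n with rfl | hn
      · simp
      · rw [← hm1, zero_pow hn.ne', zero_mul]
        exact mul_nonneg (pow_nonneg hm.le _) (h0 _)
  · rw [← hm, mul_zero]
    exact mul_nonneg (pow_nonneg le_rfl _) (h0 _)

end Pool.Agent.Q66.TB
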